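import Mathlib.LinearAlgebra.Matrix.SchurComplement
import Mathlib.LinearAlgebra.Matrix.ToLinearEquiv
import Mathlib.Data.Int.Star
import Mathlib.Algebra.Order.Ring.Star
import Mathlib.Analysis.Normed.Ring.Lemmas
import Mathlib.Algebra.Ring.IsFormallyReal

/-!
Barycentric coordinates with respect to a full simplex, and block sum determinants.
-/

namespace Pool.Agent.MP_92a546_co

open Matrix Finset

abbrev V := Fin 7 → ℤ

/-- Sum of the coordinates of `x` over the block `l` of `π`. -/
def bs {n : ℕ} (π : Fin 7 → Fin n) (x : V) (l : Fin n) : ℤ := ∑ i, if π i = l then x i else 0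

/-- The vector `δ (e a - e b)`. -/
def fr (δ : ℤ) (a b : Fin 7) : V := fun i => (if i = a then δ else 0) - (if i = b then δ else 0)

structure Good (δ : ℤ) (Y : Set V) : Prop where
  sum : ∀ w ∈ Y, ∑ i, w i = 0
  neg : ∀ w ∈ Y, -w ∈ Y
  frame : ∀ a b, fr δ a b ∈ Y
  blk : ∀ (k : ℕ) (π : Fin 7 → Fin (k + 2)) (y : Fin (k + 1) → V), (∀ l, y l ∈ Y) →
    ∃ d : ℤ, |d| ≤ 3 ∧
      (Matrix.of fun l l' : Fin (k + 1) => bs π (y l) l'.castSucc).det = δ ^ k * d

lemma bs_comp {n : ℕ} (π : Fin 7 → Fin n) (x : V) (σ : Equiv.Perm (Fin 7)) (l : Fin n) :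
    bs π (x ∘ σ) l = bs (π ∘ σ.symm) x l := by
  unfold bs
  rw [← Equiv.sum_comp σ (fun i => if (π ∘ σ.symm) i = l then x i else 0)]
  simp

lemma Good.perm {δ : ℤ} {Y : Set V} (h : Good δ Y) (σ : Equiv.Perm (Fin 7)) :
    Good δ ((fun x : V => x ∘ σ) '' Y) where
  sum := by
    rintro _ ⟨w, hw, rfl⟩
    rw [← h.sum w hw]
    exact Equiv.sum_comp σ w
  neg := by
    rintro _ ⟨w, hw, rfl⟩
    exact ⟨-w, h.neg w hw, rfl⟩
  frame := by
    intro a b
    refine ⟨fr δ (σ a) (σ b), h.frame _ _, ?_⟩
    funext i
    simp [fr]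
  blk := by
    intro k π y hy
    choose z hz hzy using hy
    obtain ⟨d, hd, he⟩ := h.blk k (π ∘ σ.symm) z hz
    refine ⟨d, hd, ?_⟩
    rw [← he]
    congr 1
    ext l l'
    simp only [of_apply]
    rw [← hzy l, bs_comp]

section block
variable {n : ℕ} (π : Fin 7 → Fin n) (τ : Fin n → Fin 7)

/-- Rows: `g l` at the representative `τ l`, and `e a - e (rep a)` elsewhere. -/
def Wm (g : Fin n → V) : Matrix (Fin 7) (Fin 7) ℤ :=
  Matrix.of fun a => if τ (π a) = a then g (π a) else fr 1 a (τ (π a))

def Qm : Matrix (Fin 7) (Fin 7) ℤ :=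
  Matrix.of fun i j => if τ (π j) = j then (if π i = π j then 1 else 0) else (if i = j then 1 else 0)

lemma det_Wm_mul (hτ : ∀ l, π (τ l) = l) (g : Fin n → V) :
    (Wm π τ g * Qm π τ).det = (Matrix.of fun l l' => bs π (g l) l').det := by
  have hinj : Function.Injective τ := Function.LeftInverse.injective hτ
  let T : Matrix (Fin 7) (Fin n) ℤ := Matrix.of fun a l => if a = τ l then 1 else 0
  let Z : Matrix (Fin n) (Fin 7) ℤ :=
    Matrix.of fun l j => (∑ i, g l i * Qm π τ i j) - if τ l = j then 1 else 0
  have h1 : Wm π τ g * Qm π τ = 1 + T * Z := by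
    ext a j
    simp only [Matrix.mul_apply, Matrix.add_apply, T, Z, of_apply, Wm]
    by_cases ha : τ (π a) = a
    · rw [if_pos ha, Finset.sum_eq_single (π a)]
      · simp [ha, Matrix.one_apply]
      · intro l _ hl
        rw [if_neg, zero_mul]
        intro e
        exact hl (by rw [e, hτ])
      · simp
    · rw [if_neg ha]
      have : ∀ l, ¬ a = τ l := by
        intro l e
        exact ha (by rw [e, hτ])
      simp only [this, if_false, zero_mul, Finset.sum_const_zero, add_zero, fr, sub_mul, ite_mul,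
        one_mul, Finset.sum_sub_distrib, Finset.sum_ite_eq', Finset.mem_univ, if_true, Qm,
        of_apply, hτ, Matrix.one_apply]
      by_cases hj : τ (π j) = j
      · have : a ≠ j := by
          rintro rfl
          exact ha hj
        simp [hj, this]
      · have : τ (π a) ≠ j := by
          rintro rfl
          exact hj (by rw [hτ])
        simp [hj, this]
  rw [h1, Matrix.det_one_add_mul_comm]
  congr 1
  ext l l'
  simp only [Matrix.mul_apply, Matrix.add_apply, T, Z, of_apply, mul_ite, mul_one, mul_zero,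
    Finset.sum_ite_eq', Finset.mem_univ, if_true, Qm, hτ, bs, Matrix.one_apply,
    hinj.eq_iff]
  ring

lemma det_Qm (hτ : ∀ l, π (τ l) = l) : (Qm π τ).det = 1 ∨ (Qm π τ).det = -1 := by
  have hinj : Function.Injective τ := Function.LeftInverse.injective hτ
  have h := det_Wm_mul π τ hτ (fun l => fun i => if i = τ l then 1 else 0)
  have h2 : (Matrix.of fun l l' => bs π (fun i => if i = τ l then (1 : ℤ) else 0) l') = 1 := by
    ext l l'
    simp only [of_apply, bs, Matrix.one_apply]
    rw [Finset.sum_eq_single (τ l)]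
    · simp [hτ]
    · intro b _ hb
      simp [hb]
    · simp
  rw [h2, det_one, det_mul] at h
  exact Int.eq_one_or_neg_one_of_mul_eq_one' h |>.imp (fun h => h.2) (fun h => h.2)

end block

section coords
variable (s : Fin 7 → Fin 6 → ℤ)

def Mm : Matrix (Fin 7) (Fin 7) ℤ := Matrix.of fun i => Fin.cons 1 (s i)

/-- Barycentric coordinates (times the determinant) of `(t, x)`. -/
def bary (t : ℤ) (x : Fin 6 → ℤ) : V := Matrix.vecMul (Fin.cons t x) (Mm s).adjugate

lemma bary_vecMul (t : ℤ) (x : Fin 6 → ℤ) :
    Matrix.vecMul (bary s t x) (Mm s) = (Mm s).det • (Fin.cons t x : V) := by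
  unfold bary
  rw [Matrix.vecMul_vecMul, Matrix.adjugate_mul, Matrix.vecMul_smul, Matrix.vecMul_one]

lemma bary_sum (t : ℤ) (x : Fin 6 → ℤ) : ∑ i, bary s t x i = (Mm s).det * t := by
  have := congrFun (bary_vecMul s t x) 0
  simpa [Matrix.vecMul, dotProduct, Mm] using this

lemma bary_vertex (a : Fin 7) :
    bary s 1 (s a) = fun i => if i = a then (Mm s).det else 0 := by
  have h := congrFun (congrFun (Matrix.mul_adjugate (Mm s)) a)
  funext i
  have := h i
  simp only [Matrix.mul_apply, Matrix.smul_apply, Matrix.one_apply, smul_eq_mul] at this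
  simp only [bary, Matrix.vecMul, dotProduct]
  rw [show (∑ x, (Fin.cons 1 (s a) : V) x * (Mm s).adjugate x i) =
    ∑ j, Mm s a j * (Mm s).adjugate j i from rfl, this]
  by_cases e : a = i
  · simp [e]
  · simp [e, Ne.symm e]

lemma bary_sub (t t' : ℤ) (x x' : Fin 6 → ℤ) :
    bary s (t - t') (x - x') = bary s t x - bary s t' x' := by
  unfold bary
  rw [← Matrix.sub_vecMul]
  congr 1
  funext i
  refine Fin.cases ?_ (fun j => ?_) i <;> simp

lemma bary_neg (x : Fin 6 → ℤ) : bary s 0 (-x) = -bary s 0 x := by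
  unfold bary
  rw [← Matrix.neg_vecMul]
  congr 1
  funext i
  refine Fin.cases ?_ (fun j => ?_) i <;> simp

lemma bary_inj (hD : (Mm s).det ≠ 0) (t : ℤ) : Function.Injective (bary s t) := by
  intro x x' h
  have h1 := bary_vecMul s t x
  rw [h, bary_vecMul] at h1
  funext j
  have := congrFun h1 j.succ
  simpa [hD] using this.symm

lemma bary_frame (a b : Fin 7) : bary s 0 (s a - s b) = fr (Mm s).det a b := by
  have := bary_sub s 1 1 (s a) (s b)
  rw [sub_self] at this
  rw [this, bary_vertex, bary_vertex]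
  rfl

lemma det_first_col (N : Matrix (Fin 7) (Fin 7) ℤ) (a : Fin 7)
    (h : ∀ i, N i 0 = if i = a then 1 else 0) :
    |N.det| = |(N.submatrix a.succAbove Fin.succ).det| := by
  rw [Matrix.det_succ_column_zero, Finset.sum_eq_single a]
  · rw [h a, if_pos rfl, mul_one, abs_mul, abs_pow, abs_neg, abs_one, one_pow, one_mul]
  · intro b _ hb
    rw [h b, if_neg hb]
    simp
  · simp

lemma block_surj {k : ℕ} (X : Set (Fin 6 → ℤ))
    (hmod : ∀ f : Fin 6 → Fin 6 → ℤ, (∀ i, f i ∈ X) → |(Matrix.of f).det| ≤ 3)
    (hs : ∀ a b, s a - s b ∈ X) (hD : (Mm s).det ≠ 0)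
    (π : Fin 7 → Fin (k + 2)) (τ : Fin (k + 2) → Fin 7) (hτ : ∀ l, π (τ l) = l)
    (y : Fin (k + 1) → Fin 6 → ℤ) (hy : ∀ l, y l ∈ X) :
    ∃ d : ℤ, |d| ≤ 3 ∧
      (Matrix.of fun l l' : Fin (k + 1) => bs π (bary s 0 (y l)) l'.castSucc).det =
        (Mm s).det ^ k * d := by
  have hinj : Function.Injective τ := Function.LeftInverse.injective hτ
  set D := (Mm s).det with hDdef
  let g : Fin (k + 2) → V :=
    Fin.snoc (fun l => bary s 0 (y l)) (fun i => if i = τ (Fin.last _) then 1 else 0)
  let r : Fin (k + 2) → V :=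
    Fin.snoc (fun l => Fin.cons 0 (y l)) (Fin.cons 1 (s (τ (Fin.last _))))
  let N : Matrix (Fin 7) (Fin 7) ℤ :=
    Matrix.of fun a => if τ (π a) = a then r (π a) else Fin.cons 0 (s a - s (τ (π a)))
  let c : Fin 7 → ℤ := fun a => if τ (π a) = a ∧ π a ≠ Fin.last _ then D else 1
  have hvert : ∀ a : Fin 7, Matrix.vecMul (fun i => if i = a then (1 : ℤ) else 0) (Mm s) =
      Fin.cons 1 (s a) := by
    intro a
    funext j
    simp [Matrix.vecMul, dotProduct, Mm]
  have h1 : Wm π τ g * Mm s = Matrix.of fun a j => c a * N a j := by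
    ext a j
    have e : (Wm π τ g * Mm s) a j =
      Matrix.vecMul (if τ (π a) = a then g (π a) else fr 1 a (τ (π a))) (Mm s) j := rfl
    rw [e]
    simp only [of_apply, N, c]
    by_cases ha : τ (π a) = a
    · simp only [ha, if_true, true_and]
      generalize π a = l
      refine Fin.lastCases ?_ (fun l => ?_) l
      · simp only [g, r, Fin.snoc_last, hvert]
        simp
      · simp only [g, r, Fin.snoc_castSucc, bary_vecMul]
        simp [Fin.castSucc_ne_last, hDdef]
    · simp only [ha, if_false, false_and, one_mul]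
      have : fr 1 a (τ (π a)) = (fun i => if i = a then (1 : ℤ) else 0) -
          (fun i => if i = τ (π a) then (1 : ℤ) else 0) := rfl
      rw [this, Matrix.sub_vecMul, hvert, hvert]
      refine Fin.cases ?_ (fun j => ?_) j <;> simp
  have hc : ∏ a, c a = D ^ (k + 1) := by
    have : ∏ a, c a = ∏ a ∈ Finset.univ.image (fun l : Fin (k + 1) => τ l.castSucc), D := by
      simp only [c]
      rw [Finset.prod_ite, Finset.prod_const_one, mul_one]
      congr 1
      ext a
      simp only [Finset.mem_filter, Finset.mem_univ, true_and, Finset.mem_image]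
      constructor
      · rintro ⟨h1, h2⟩
        obtain ⟨l, hl⟩ := Fin.exists_castSucc_eq.2 h2
        exact ⟨l, by rw [hl, h1]⟩
      · rintro ⟨l, rfl⟩
        simp [hτ, Fin.castSucc_ne_last]
    have hi : Function.Injective (fun l : Fin (k + 1) => τ l.castSucc) :=
      hinj.comp (Fin.castSucc_injective _)
    rw [this, Finset.prod_const, Finset.card_image_of_injective _ hi]
    simp
  have h2 : (Wm π τ g).det = D ^ k * N.det := by
    have := congrArg Matrix.det h1
    rw [det_mul, Matrix.det_mul_column, hc, ← hDdef] at this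
    apply mul_right_cancel₀ hD
    rw [this]
    ring
  have h3 : |N.det| ≤ 3 := by
    rw [det_first_col N (τ (Fin.last _))]
    · apply hmod
      intro i
      set a := (τ (Fin.last (k + 1))).succAbove i with ha
      have hne : a ≠ τ (Fin.last _) := Fin.succAbove_ne _ _
      change (fun j => N a (Fin.succ j)) ∈ X
      simp only [N, of_apply]
      by_cases h : τ (π a) = a
      · simp only [h, if_true]
        have : π a ≠ Fin.last _ := by
          intro e
          exact hne (by rw [← e, h])
        obtain ⟨l, hl⟩ := Fin.exists_castSucc_eq.2 this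
        rw [← hl]
        simpa [r] using hy l
      · simp only [h, if_false]
        exact hs a (τ (π a))
    · intro a
      simp only [N, of_apply]
      by_cases h : τ (π a) = a
      · simp only [h, if_true]
        by_cases e : π a = Fin.last _
        · have : a = τ (Fin.last _) := by rw [← e, h]
          rw [e, if_pos this]
          simp [r]
        · obtain ⟨l, hl⟩ := Fin.exists_castSucc_eq.2 e
          have : a ≠ τ (Fin.last _) := by
            intro e'
            exact e (by rw [e', hτ])
          rw [← hl, if_neg this]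
          simp [r]
      · have : a ≠ τ (Fin.last _) := by
          intro e'
          exact h (by rw [e', hτ])
        simp [h, this]
  have h4 : (Matrix.of fun l l' => bs π (g l) l').det =
      (Matrix.of fun l l' : Fin (k + 1) => bs π (bary s 0 (y l)) l'.castSucc).det := by
    rw [Matrix.det_succ_row _ (Fin.last _), Finset.sum_eq_single (Fin.last _)]
    · have : bs π (g (Fin.last _)) (Fin.last _) = 1 := by
        simp only [g, Fin.snoc_last, bs]
        rw [Finset.sum_eq_single (τ (Fin.last _))]
        · simp [hτ]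
        · intro b _ hb
          simp [hb]
        · simp
      rw [of_apply, this, ← two_mul, pow_mul]
      simp only [even_two, Even.neg_pow, one_pow, mul_one, one_mul, Fin.succAbove_last]
      congr 1
      ext l l'
      simp [g]
    · intro l _ hl
      have : bs π (g (Fin.last _)) l = 0 := by
        simp only [g, Fin.snoc_last, bs]
        apply Finset.sum_eq_zero
        intro i _
        by_cases e : i = τ (Fin.last _)
        · rw [if_neg]
          rw [e, hτ]
          exact Ne.symm hl
        · simp [e]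
      rw [of_apply, this]
      simp
    · simp
  rw [← h4, ← det_Wm_mul π τ hτ, det_mul, h2]
  rcases det_Qm π τ hτ with h | h
  · exact ⟨N.det, h3, by rw [h, mul_one]⟩
  · exact ⟨-N.det, by rwa [abs_neg], by rw [h]; ring⟩

lemma block_nonsurj {k : ℕ} (π : Fin 7 → Fin (k + 2)) (hπ : ¬ Function.Surjective π)
    (y : Fin (k + 1) → V) (hy : ∀ l, ∑ i, y l i = 0) :
    (Matrix.of fun l l' : Fin (k + 1) => bs π (y l) l'.castSucc).det = 0 := by
  simp only [Function.Surjective, not_forall, not_exists] at hπ
  obtain ⟨l0, hl0⟩ := hπ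
  have hz : ∀ x : V, bs π x l0 = 0 := fun x => by simp [bs, hl0]
  revert hz
  refine Fin.lastCases ?_ (fun l0 => ?_) l0
  · intro hz
    apply Matrix.exists_mulVec_eq_zero_iff.1
    refine ⟨fun _ => 1, ?_, ?_⟩
    · intro h
      simpa using congrFun h 0
    · funext l
      have h1 : ∑ l' : Fin (k + 2), bs π (y l) l' = 0 := by
        unfold bs
        rw [Finset.sum_comm]
        simpa using hy l
      rw [Fin.sum_univ_castSucc, hz, add_zero] at h1
      simpa [Matrix.mulVec, dotProduct] using h1
  · intro hz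
    exact Matrix.det_eq_zero_of_column_eq_zero l0 (fun l => hz _)

lemma good_of (X : Set (Fin 6 → ℤ))
    (hmod : ∀ f : Fin 6 → Fin 6 → ℤ, (∀ i, f i ∈ X) → |(Matrix.of f).det| ≤ 3)
    (hneg : ∀ x ∈ X, -x ∈ X) (hs : ∀ a b, s a - s b ∈ X) (hD : (Mm s).det ≠ 0) :
    Good |(Mm s).det| (bary s 0 '' X) where
  sum := by
    rintro _ ⟨x, -, rfl⟩
    rw [bary_sum, mul_zero]
  neg := by
    rintro _ ⟨x, hx, rfl⟩
    exact ⟨-x, hneg x hx, bary_neg s x⟩
  frame := by
    intro a b
    rcases abs_choice (Mm s).det with h | h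
    · exact ⟨_, hs a b, by rw [h, bary_frame]⟩
    · refine ⟨_, hs b a, ?_⟩
      rw [h, bary_frame]
      funext i
      simp only [fr]
      split_ifs <;> simp
  blk := by
    intro k π y hy
    choose x hx hxy using hy
    by_cases hπ : Function.Surjective π
    · obtain ⟨τ, hτ⟩ := hπ.hasRightInverse
      obtain ⟨d, hd, he⟩ := block_surj s X hmod hs hD π τ hτ x hx
      simp only [hxy] at he
      rcases abs_choice ((Mm s).det ^ k) with h | h
      · exact ⟨d, hd, by rw [he, ← abs_pow, h]⟩
      · exact ⟨-d, by rwa [abs_neg], by rw [he, ← abs_pow, h]; ring⟩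
    · refine ⟨0, by norm_num, ?_⟩
      rw [block_nonsurj π hπ y, mul_zero]
      intro l
      rw [← hxy l, bary_sum, mul_zero]

end coords

end Pool.Agent.MP_92a546_co
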