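import Pool.Agent.MP_92a546_co.Block

/-!
A verified checker bounding the size of a good set.
-/

namespace Pool.Agent.MP_92a546_co

open Finset

structure W where
  a : ℤ
  b : ℤ
  c : ℤ
  d : ℤ
  e : ℤ
  f : ℤ
  g : ℤ

def W.v (w : W) : V := ![w.a, w.b, w.c, w.d, w.e, w.f, w.g]
def W.of (x : V) : W := ⟨x 0, x 1, x 2, x 3, x 4, x 5, x 6⟩
def W.zero : W := ⟨0, 0, 0, 0, 0, 0, 0⟩
def W.eqb (u w : W) : Bool :=
  u.a == w.a && u.b == w.b && u.c == w.c && u.d == w.d && u.e == w.e && u.f == w.f && u.g == w.g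

lemma W.of_v (x : V) : (W.of x).v = x := by
  funext i
  fin_cases i <;> rfl

lemma W.eq_of_eqb {u w : W} (h : u.eqb w = true) : u = w := by
  cases u
  cases w
  simp only [W.eqb, Bool.and_eq_true, beq_iff_eq] at h
  simp [h]

lemma W.zero_v : W.zero.v = 0 := by
  funext i
  fin_cases i <;> rfl

def dot (p w : W) : ℤ :=
  p.a * w.a + p.b * w.b + p.c * w.c + p.d * w.d + p.e * w.e + p.f * w.f + p.g * w.g

def ind (n l : ℕ) (x : ℤ) : ℤ := if n = l then x else 0
def dg (c i : ℕ) : ℕ := c / 4 ^ i % 4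
def bsum (c l : ℕ) (w : W) : ℤ :=
  ind (dg c 0) l w.a + ind (dg c 1) l w.b + ind (dg c 2) l w.c + ind (dg c 3) l w.d +
    ind (dg c 4) l w.e + ind (dg c 5) l w.f + ind (dg c 6) l w.g
def sel (n : ℕ) (x y z : ℤ) : ℤ := ind n 0 x + ind n 1 y + ind n 2 z
def cut3 (c : ℕ) (x y z : ℤ) : W :=
  ⟨sel (dg c 0) x y z, sel (dg c 1) x y z, sel (dg c 2) x y z, sel (dg c 3) x y z,
    sel (dg c 4) x y z, sel (dg c 5) x y z, sel (dg c 6) x y z⟩
def mkCut (u v : W) (c : ℕ) : W :=
  cut3 c (bsum c 1 u * bsum c 2 v - bsum c 2 u * bsum c 1 v)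
    (bsum c 2 u * bsum c 0 v - bsum c 0 u * bsum c 2 v)
    (bsum c 0 u * bsum c 1 v - bsum c 1 u * bsum c 0 v)
def bad (m : ℕ) (t : ℤ) : Bool := Nat.blt (3 * m) t.natAbs || t.natAbs % m != 0

def piOf (c : ℕ) : Fin 7 → Fin 4 := fun i => ⟨dg c i, Nat.mod_lt _ (by norm_num)⟩

lemma bs_piOf (c : ℕ) (w : W) (l : Fin 4) : bs (piOf c) w.v l = bsum c l w := by
  simp only [bs, Fin.sum_univ_seven, piOf, Fin.ext_iff, bsum, ind, W.v]
  rfl

lemma sel_mul (n : ℕ) (x y z t : ℤ) :
    sel n x y z * t = x * ind n 0 t + y * ind n 1 t + z * ind n 2 t := by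
  unfold sel ind
  split_ifs <;> ring

lemma dot_cut3 (c : ℕ) (x y z : ℤ) (w : W) :
    dot (cut3 c x y z) w = x * bsum c 0 w + y * bsum c 1 w + z * bsum c 2 w := by
  simp only [dot, cut3, sel_mul, bsum]
  ring

lemma not_bad {δ : ℤ} {m : ℕ} {Y : Set V} (h : Good δ Y) (hm : δ ^ 2 = m) {u v w : W}
    (hu : u.v ∈ Y) (hv : v.v ∈ Y) (hw : w.v ∈ Y) (c : ℕ) :
    bad m (dot (mkCut u v c) w) = false := by
  obtain ⟨d, hd, he⟩ := h.blk 2 (piOf c) ![u.v, v.v, w.v] (by
    intro l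
    fin_cases l <;> assumption)
  have e : dot (mkCut u v c) w = m * d := by
    rw [← hm, ← he, Matrix.det_fin_three, mkCut, dot_cut3]
    simp only [Matrix.of_apply, Matrix.cons_val_zero, Matrix.cons_val_one, Matrix.cons_val,
      bs_piOf]
    simp only [Fin.castSucc_zero, Fin.castSucc_one, Fin.val_zero, Fin.val_one,
      show ((2 : Fin 3).castSucc : ℕ) = 2 from rfl]
    ring
  have h3 : d.natAbs ≤ 3 := by
    rw [abs_le] at hd
    omega
  simp only [bad, e, Int.natAbs_mul, Int.natAbs_natCast, Nat.mul_mod_right, bne_self_eq_false,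
    Bool.or_false]
  rw [Bool.eq_false_iff]
  intro hb
  rw [Nat.blt_eq] at hb
  nlinarith

/-! ### Enumeration of vectors with small positive and negative part -/

def allGen : ℕ → ℕ → ℕ → Bool → (List ℤ → Bool) → Bool
  | 0, p, q, _, P => p != q || P []
  | n + 1, p, q, z, P =>
    allGen n p q z (fun l => P (0 :: l)) &&
    (Nat.blt p 1 || allGen n (p - 1) q false (fun l => P (1 :: l))) &&
    (Nat.blt p 2 || allGen n (p - 2) q false (fun l => P (2 :: l))) &&
    (Nat.blt p 3 || allGen n (p - 3) q false (fun l => P (3 :: l))) &&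
    (z || ((Nat.blt q 1 || allGen n p (q - 1) false (fun l => P (-1 :: l))) &&
    (Nat.blt q 2 || allGen n p (q - 2) false (fun l => P (-2 :: l))) &&
    (Nat.blt q 3 || allGen n p (q - 3) false (fun l => P (-3 :: l)))))

def posL (l : List ℤ) : ℕ := (l.map Int.toNat).sum
def negL (l : List ℤ) : ℕ := (l.map fun x => (-x).toNat).sum
def lexPos : List ℤ → Prop
  | [] => True
  | x :: l => 0 < x ∨ (x = 0 ∧ lexPos l)

lemma lexPos_or (l : List ℤ) : lexPos l ∨ lexPos (l.map fun x => -x) := by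
  induction l with
  | nil => left; trivial
  | cons x l ih =>
    rcases lt_trichotomy x 0 with h | h | h
    · right; left; simpa using h
    · rcases ih with ih | ih
      · left; right; exact ⟨h, ih⟩
      · right; right; exact ⟨by simp [h], ih⟩
    · left; left; exact h

lemma allGen_sound (n : ℕ) : ∀ (p q : ℕ) (z : Bool) (P : List ℤ → Bool),
    allGen n p q z P = true → p ≤ 3 → q ≤ 3 → ∀ l : List ℤ, l.length = n → posL l ≤ p →
    negL l ≤ q → p + negL l = q + posL l → (z = true → lexPos l) → P l = true := by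
  induction n with
  | zero =>
    intro p q z P h _ _ l hl _ _ he _
    obtain rfl := List.length_eq_zero_iff.1 hl
    simp only [posL, negL, List.map_nil, List.sum_nil, add_zero] at he
    simpa [allGen, he] using h
  | succ n ih =>
    intro p q z P h hp hq l hl h1 h2 he hz
    obtain ⟨x, l, rfl⟩ := List.exists_cons_of_length_eq_add_one hl
    have hl' : l.length = n := by simpa using hl
    have e1 : posL (x :: l) = x.toNat + posL l := by simp [posL]
    have e2 : negL (x :: l) = (-x).toNat + negL l := by simp [negL]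
    rw [e1] at h1 he
    rw [e2] at h2 he
    simp only [allGen, Bool.and_eq_true, Bool.or_eq_true, Nat.blt_eq] at h
    obtain ⟨⟨⟨⟨a0, a1⟩, a2⟩, a3⟩, a4⟩ := h
    have hneg : x < 0 → z ≠ true := by
      intro hx hz'
      rcases hz hz' with h | h <;> omega
    have hx : x = 0 ∨ x = 1 ∨ x = 2 ∨ x = 3 ∨ x = -1 ∨ x = -2 ∨ x = -3 := by omega
    rcases hx with rfl | rfl | rfl | rfl | rfl | rfl | rfl
    · refine ih p q z _ a0 hp hq l hl' (by omega) (by omega) (by omega) ?_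
      intro hz'
      rcases hz hz' with h | h
      · omega
      · exact h.2
    · exact ih _ _ _ _ (a1.resolve_left (by omega)) (by omega) hq l hl' (by omega) (by omega)
        (by omega) (by simp)
    · exact ih _ _ _ _ (a2.resolve_left (by omega)) (by omega) hq l hl' (by omega) (by omega)
        (by omega) (by simp)
    · exact ih _ _ _ _ (a3.resolve_left (by omega)) (by omega) hq l hl' (by omega) (by omega)
        (by omega) (by simp)
    · exact ih _ _ _ _ ((a4.resolve_left (hneg (by omega))).1.1.resolve_left (by omega)) hp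
        (by omega) l hl' (by omega) (by omega) (by omega) (by simp)
    · exact ih _ _ _ _ ((a4.resolve_left (hneg (by omega))).1.2.resolve_left (by omega)) hp
        (by omega) l hl' (by omega) (by omega) (by omega) (by simp)
    · exact ih _ _ _ _ ((a4.resolve_left (hneg (by omega))).2.resolve_left (by omega)) hp
        (by omega) l hl' (by omega) (by omega) (by omega) (by simp)

def ofL : List ℤ → W
  | [a, b, c, d, e, f, g] => ⟨a, b, c, d, e, f, g⟩
  | _ => W.zero

def posV (x : V) : ℕ := ∑ i, (x i).toNat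

def gen (B : ℕ) (z : Bool) (P : W → Bool) : Bool := allGen 7 B B z (fun l => P (ofL l))

lemma posV_neg (x : V) (hs : ∑ i, x i = 0) : posV (-x) = posV x := by
  have e : ((posV x : ℕ) : ℤ) - (posV (-x) : ℕ) = ∑ i, x i := by
    simp only [posV, Nat.cast_sum, ← Finset.sum_sub_distrib, Pi.neg_apply,
      Int.toNat_sub_toNat_neg]
  omega

lemma gen_aux {B : ℕ} {z : Bool} {P : W → Bool} (h : gen B z P = true) (hB : B ≤ 3) (x : V)
    (hs : ∑ i, x i = 0) (hp : posV x ≤ B)
    (hz : z = true → lexPos [x 0, x 1, x 2, x 3, x 4, x 5, x 6]) : P (W.of x) = true := by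
  have e1 : posL [x 0, x 1, x 2, x 3, x 4, x 5, x 6] = posV x := by
    simp only [posL, posV, List.map_cons, List.map_nil, List.sum_cons, List.sum_nil,
      Fin.sum_univ_seven]
    ring
  have e2 : negL [x 0, x 1, x 2, x 3, x 4, x 5, x 6] = posV x := by
    rw [← posV_neg x hs]
    simp only [negL, posV, List.map_cons, List.map_nil, List.sum_cons, List.sum_nil,
      Fin.sum_univ_seven, Pi.neg_apply]
    ring
  exact allGen_sound 7 B B z _ h hB hB [x 0, x 1, x 2, x 3, x 4, x 5, x 6] rfl (e1 ▸ hp) (e2 ▸ hp)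
    (by rw [e1, e2]) hz

lemma gen_true {B : ℕ} {P : W → Bool} (h : gen B true P = true) (hB : B ≤ 3) (x : V)
    (hs : ∑ i, x i = 0) (hp : posV x ≤ B) : P (W.of x) = true ∨ P (W.of (-x)) = true := by
  rcases lexPos_or [x 0, x 1, x 2, x 3, x 4, x 5, x 6] with h1 | h1
  · exact Or.inl (gen_aux h hB x hs hp (fun _ => h1))
  · refine Or.inr (gen_aux h hB (-x) (by simpa using hs) (by rwa [posV_neg x hs]) (fun _ => h1))

lemma Good.posV_le {δ : ℤ} {Y : Set V} (h : Good δ Y) {x : V} (hx : x ∈ Y) : posV x ≤ 3 := by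
  obtain ⟨d, hd, he⟩ := h.blk 0 (fun i => if 0 < x i then 0 else 1) (fun _ => x) (fun _ => hx)
  rw [Matrix.det_fin_one, Matrix.of_apply, pow_zero, one_mul] at he
  have : (posV x : ℤ) = d := by
    rw [← he, posV, bs, Nat.cast_sum]
    refine Finset.sum_congr rfl fun i _ => ?_
    by_cases hi : 0 < x i
    · simp [hi, hi.le]
    · simp [hi, not_lt.1 hi]
  rw [abs_le] at hd
  omega

/-! ### The checker -/

def frames (δ : ℤ) : List W :=
  [⟨δ, -δ, 0, 0, 0, 0, 0⟩, ⟨δ, 0, -δ, 0, 0, 0, 0⟩, ⟨δ, 0, 0, -δ, 0, 0, 0⟩, ⟨δ, 0, 0, 0, -δ, 0, 0⟩,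
    ⟨δ, 0, 0, 0, 0, -δ, 0⟩, ⟨δ, 0, 0, 0, 0, 0, -δ⟩, ⟨0, δ, -δ, 0, 0, 0, 0⟩, ⟨0, δ, 0, -δ, 0, 0, 0⟩,
    ⟨0, δ, 0, 0, -δ, 0, 0⟩, ⟨0, δ, 0, 0, 0, -δ, 0⟩, ⟨0, δ, 0, 0, 0, 0, -δ⟩, ⟨0, 0, δ, -δ, 0, 0, 0⟩,
    ⟨0, 0, δ, 0, -δ, 0, 0⟩, ⟨0, 0, δ, 0, 0, -δ, 0⟩, ⟨0, 0, δ, 0, 0, 0, -δ⟩, ⟨0, 0, 0, δ, -δ, 0, 0⟩,
    ⟨0, 0, 0, δ, 0, -δ, 0⟩, ⟨0, 0, 0, δ, 0, 0, -δ⟩, ⟨0, 0, 0, 0, δ, -δ, 0⟩, ⟨0, 0, 0, 0, δ, 0, -δ⟩,
    ⟨0, 0, 0, 0, 0, δ, -δ⟩]

lemma frames_spec (δ : ℤ) : ∀ w ∈ frames δ, ∃ a b, w.v = fr δ a b := by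
  have e : frames δ = ([(0, 1), (0, 2), (0, 3), (0, 4), (0, 5), (0, 6), (1, 2), (1, 3), (1, 4),
      (1, 5), (1, 6), (2, 3), (2, 4), (2, 5), (2, 6), (3, 4), (3, 5), (3, 6), (4, 5), (4, 6),
      (5, 6)] : List (Fin 7 × Fin 7)).map fun p => W.of (fr δ p.1 p.2) := by
    simp [frames, W.of, fr]
  intro w hw
  rw [e, List.mem_map] at hw
  obtain ⟨p, -, rfl⟩ := hw
  exact ⟨p.1, p.2, W.of_v _⟩

def memb (w : W) (L : List W) : Bool := L.any fun x => x.eqb w

lemma mem_of_memb {w : W} {L : List W} (h : memb w L = true) : w ∈ L := by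
  obtain ⟨x, hx, e⟩ := List.any_eq_true.1 h
  rwa [← W.eq_of_eqb e]

abbrev Grp := List (W × List (ℕ × ℕ))

def pairOK (m : ℕ) (kn : List W) (u : W) : Grp → List (ℕ × ℕ) → Bool
  | [], _ => true
  | _ :: _, [] => false
  | v :: r, c :: cs => bad m (dot (mkCut (kn.getD c.1 W.zero) u c.2) v.1) && pairOK m kn u r cs

def groupOK (m : ℕ) (kn : List W) : Grp → Bool
  | [] => true
  | u :: r => pairOK m kn u.1 r u.2 && groupOK m kn r

def cutsOK (kn : List W) : List W → List (ℕ × ℕ × ℕ) → Bool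
  | [], _ => true
  | _ :: _, [] => false
  | p :: r, c :: cs =>
    p.eqb (mkCut (kn.getD c.1 W.zero) (kn.getD c.2.1 W.zero) c.2.2) && cutsOK kn r cs

def check (δ : ℤ) (m B : ℕ) (K ps : List W) (cs : List (ℕ × ℕ × ℕ)) (gs : List Grp) : Bool :=
  cutsOK (K ++ frames δ) ps cs && gs.all (groupOK m (K ++ frames δ)) && Nat.ble gs.length 14 &&
    gen B true fun w => (ps.any fun p => bad m (dot p w)) || W.zero.eqb w ||
      memb w (frames δ) || gs.any fun g => g.any fun x => x.1.eqb w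

def Chk (δ : ℤ) (m B : ℕ) (K : List W) : Prop := ∃ ps cs gs, check δ m B K ps cs gs = true

section sound
variable {δ : ℤ} {m : ℕ} {Y : Set V} {kn : List W}

lemma getD_mem (h : Good δ Y) (hk : ∀ w ∈ kn, w.v ∈ Y) (i : ℕ) : (kn.getD i W.zero).v ∈ Y := by
  rw [List.getD_eq_getElem?_getD]
  cases e : kn[i]? with
  | none =>
    have := h.frame 0 0
    have e0 : fr δ 0 0 = 0 := by
      funext i
      simp [fr]
    rw [e0] at this
    simpa [W.zero_v] using this
  | some w => exact hk w (List.mem_of_getElem? e)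

lemma pairOK_sound (h : Good δ Y) (hm : δ ^ 2 = m) (hk : ∀ w ∈ kn, w.v ∈ Y) {u : W}
    (hu : u.v ∈ Y) (r : Grp) : ∀ cs, pairOK m kn u r cs = true → ∀ v ∈ r, v.1.v ∉ Y := by
  induction r with
  | nil => simp
  | cons v r ih =>
    intro cs hc
    cases cs with
    | nil => simp [pairOK] at hc
    | cons c cs =>
      simp only [pairOK, Bool.and_eq_true] at hc
      intro x hx
      rcases List.mem_cons.1 hx with rfl | hx
      · intro hv
        rw [not_bad h hm (getD_mem h hk _) hu hv] at hc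
        exact absurd hc.1 (by simp)
      · exact ih cs hc.2 x hx

lemma groupOK_sound (h : Good δ Y) (hm : δ ^ 2 = m) (hk : ∀ w ∈ kn, w.v ∈ Y) (g : Grp)
    (hg : groupOK m kn g = true) : ∀ u ∈ g, ∀ v ∈ g, u.1.v ∈ Y → v.1.v ∈ Y → u.1.v = v.1.v := by
  induction g with
  | nil => simp
  | cons x r ih =>
    simp only [groupOK, Bool.and_eq_true] at hg
    intro u hu v hv h1 h2
    rcases List.mem_cons.1 hu with rfl | hu' <;> rcases List.mem_cons.1 hv with rfl | hv'
    · rfl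
    · exact absurd h2 (pairOK_sound h hm hk h1 r _ hg.1 v hv')
    · exact absurd h1 (pairOK_sound h hm hk h2 r _ hg.1 u hu')
    · exact ih hg.2 u hu' v hv' h1 h2

lemma cutsOK_sound (h : Good δ Y) (hm : δ ^ 2 = m) (hk : ∀ w ∈ kn, w.v ∈ Y) {w : W}
    (hw : w.v ∈ Y) (ps : List W) :
    ∀ cs, cutsOK kn ps cs = true → ∀ p ∈ ps, bad m (dot p w) = false := by
  induction ps with
  | nil => simp
  | cons p r ih =>
    intro cs hc
    cases cs with
    | nil => simp [cutsOK] at hc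
    | cons c cs =>
      simp only [cutsOK, Bool.and_eq_true] at hc
      intro x hx
      rcases List.mem_cons.1 hx with rfl | hx
      · rw [W.eq_of_eqb hc.1]
        exact not_bad h hm (getD_mem h hk _) (getD_mem h hk _) hw _
      · exact ih cs hc.2 x hx

end sound

lemma card_slots (Y : Finset V) (hneg : ∀ w ∈ Y, -w ∈ Y) (gs : List (List V))
    (hone : ∀ g ∈ gs, ∀ u ∈ g, ∀ v ∈ g, u ∈ Y → v ∈ Y → u = v) :
    (Y.filter fun w => ∃ g ∈ gs, w ∈ g ∨ -w ∈ g).card ≤ 2 * gs.length := by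
  induction gs with
  | nil => simp
  | cons g gs ih =>
    have h1 : (Y.filter fun w => w ∈ g).card ≤ 1 := by
      rw [Finset.card_le_one]
      intro u hu v hv
      rw [Finset.mem_filter] at hu hv
      exact hone g (by simp) u hu.2 v hv.2 hu.1 hv.1
    have h2 : (Y.filter fun w => -w ∈ g).card ≤ 1 := by
      rw [Finset.card_le_one]
      intro u hu v hv
      rw [Finset.mem_filter] at hu hv
      exact neg_injective (hone g (by simp) _ hu.2 _ hv.2 (hneg _ hu.1) (hneg _ hv.1))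
    have h3 := ih (fun g' hg' => hone g' (by simp [hg']))
    have h4 : (Y.filter fun w => ∃ g' ∈ g :: gs, w ∈ g' ∨ -w ∈ g') ⊆
        ((Y.filter fun w => w ∈ g) ∪ (Y.filter fun w => -w ∈ g)) ∪
          (Y.filter fun w => ∃ g ∈ gs, w ∈ g ∨ -w ∈ g) := by
      intro w hw
      simp only [Finset.mem_filter, Finset.mem_union, List.mem_cons, exists_eq_or_imp] at hw ⊢
      rcases hw with ⟨h, (h' | h') | h'⟩
      · exact Or.inl (Or.inl ⟨h, h'⟩)
      · exact Or.inl (Or.inr ⟨h, h'⟩)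
      · exact Or.inr ⟨h, h'⟩
    have h5 := (Finset.card_le_card h4).trans (Finset.card_union_le _ _)
    have h6 := Finset.card_union_le (Y.filter fun w => w ∈ g) (Y.filter fun w => -w ∈ g)
    simp only [List.length_cons]
    omega

theorem chk_sound {δ : ℤ} {m B : ℕ} {Y : Finset V} {K : List W} (h : Good δ (Y : Set V))
    (hm : δ ^ 2 = m) (hK : ∀ w ∈ K, w.v ∈ Y) (hB : B ≤ 3) (hY : ∀ x ∈ Y, posV x ≤ B)
    (hc : Chk δ m B K) : Y.card ≤ 71 := by
  obtain ⟨ps, cs, gs, hc⟩ := hc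
  simp only [check, Bool.and_eq_true, Nat.ble_eq, List.all_eq_true] at hc
  obtain ⟨⟨⟨c1, c2⟩, c3⟩, c4⟩ := hc
  have hk : ∀ w ∈ K ++ frames δ, w.v ∈ (Y : Set V) := by
    intro w hw
    rcases List.mem_append.1 hw with hw | hw
    · exact hK w hw
    · obtain ⟨a, b, e⟩ := frames_spec δ w hw
      rw [e]
      exact h.frame a b
  let G : List (List V) := (frames δ).map (fun w => [w.v]) ++ gs.map fun g => g.map fun x => x.1.v
  have hG := card_slots Y h.neg G (by
    intro g hg u hu v hv h1 h2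
    rcases List.mem_append.1 hg with hg | hg
    · obtain ⟨w, -, rfl⟩ := List.mem_map.1 hg
      rw [List.mem_singleton.1 hu, List.mem_singleton.1 hv]
    · obtain ⟨g', hg', rfl⟩ := List.mem_map.1 hg
      obtain ⟨u', hu', rfl⟩ := List.mem_map.1 hu
      obtain ⟨v', hv', rfl⟩ := List.mem_map.1 hv
      exact groupOK_sound h hm hk g' (c2 g' hg') u' hu' v' hv' h1 h2)
  have hlen : G.length ≤ 35 := by
    have : (frames δ).length = 21 := rfl
    simp only [G, List.length_append, List.length_map, this]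
    omega
  have key : ∀ x ∈ Y, ((ps.any fun p => bad m (dot p (W.of x))) || W.zero.eqb (W.of x) ||
      memb (W.of x) (frames δ) || gs.any fun g => g.any fun y => y.1.eqb (W.of x)) = true →
      x = 0 ∨ ∃ g ∈ G, x ∈ g := by
    intro x hx hP
    simp only [Bool.or_eq_true, List.any_eq_true] at hP
    rcases hP with ((⟨p, hp, e⟩ | e) | e) | ⟨g, hg, y, hy, e⟩
    · rw [cutsOK_sound h hm hk (by rw [W.of_v]; exact hx) ps cs c1 p hp] at e
      exact absurd e (by simp)
    · left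
      rw [← W.of_v x, ← W.eq_of_eqb e, W.zero_v]
    · right
      refine ⟨[x], List.mem_append_left _ (List.mem_map.2 ⟨_, mem_of_memb e, ?_⟩), by simp⟩
      rw [W.of_v]
    · right
      refine ⟨_, List.mem_append_right _ (List.mem_map.2 ⟨g, hg, rfl⟩),
        List.mem_map.2 ⟨y, hy, ?_⟩⟩
      rw [W.eq_of_eqb e, W.of_v]
  have hsub : Y ⊆ insert 0 (Y.filter fun w => ∃ g ∈ G, w ∈ g ∨ -w ∈ g) := by
    intro x hx
    rw [Finset.mem_insert, Finset.mem_filter]
    rcases gen_true c4 hB x (h.sum x hx) (hY x hx) with hP | hP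
    · rcases key x hx hP with e | ⟨g, hg, e⟩
      · exact Or.inl e
      · exact Or.inr ⟨hx, g, hg, Or.inl e⟩
    · rcases key (-x) (h.neg x hx) hP with e | ⟨g, hg, e⟩
      · exact Or.inl (neg_eq_zero.1 e)
      · exact Or.inr ⟨hx, g, hg, Or.inr e⟩
  have := (Finset.card_le_card hsub).trans (Finset.card_insert_le _ _)
  omega

end Pool.Agent.MP_92a546_co
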