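import Pool.Agent.MP_92a546_co.Check

/-! Certificates for simplices of normalized volume 1. -/

namespace Pool.Agent.MP_92a546_co

def kOf (w : W) : List W :=
  [⟨w.a - 1, w.b, w.c, w.d, w.e, w.f, w.g⟩, ⟨w.a, w.b - 1, w.c, w.d, w.e, w.f, w.g⟩,
    ⟨w.a, w.b, w.c - 1, w.d, w.e, w.f, w.g⟩, ⟨w.a, w.b, w.c, w.d - 1, w.e, w.f, w.g⟩,
    ⟨w.a, w.b, w.c, w.d, w.e - 1, w.f, w.g⟩, ⟨w.a, w.b, w.c, w.d, w.e, w.f - 1, w.g⟩,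
    ⟨w.a, w.b, w.c, w.d, w.e, w.f, w.g - 1⟩]

theorem c1_base : Chk 1 1 1 [] := ⟨[], [], [], by decide +kernel⟩

theorem c1_0 : Chk 1 1 3 (kOf ⟨1,1,0,0,0,0,-1⟩) :=
  ⟨[⟨0,0,0,2,2,2,0⟩,⟨0,0,-2,0,-2,-2,0⟩,⟨0,0,-2,-2,0,-2,0⟩,⟨-1,1,-1,-1,-1,1,0⟩,⟨-1,1,1,1,1,-1,0⟩,
    ⟨-1,-1,-2,-2,0,0,-2⟩,⟨1,1,2,2,0,0,0⟩,⟨-1,1,-1,1,-1,1,0⟩,⟨-1,1,1,-1,-1,1,0⟩,⟨1,-1,1,0,-1,1,0⟩,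
    ⟨0,0,-2,0,-2,0,0⟩,⟨-1,-1,-2,0,0,-2,-2⟩,⟨1,1,0,2,2,0,2⟩,⟨-1,1,-1,-1,1,-1,0⟩],
   [(2,6,14992),(3,6,13712),(4,6,13904),(6,8,13348),(6,11,14676),(4,5,7760),(2,3,16272),(6,8,13412),
    (6,9,13460),(3,6,12676),(3,5,11664),(3,4,6032),(2,5,11920),(6,8,12580)],
   [[(⟨1,1,-1,0,0,0,-1⟩,[])],[(⟨1,1,0,-1,0,0,-1⟩,[])],[(⟨1,1,0,0,-1,0,-1⟩,[])],[(⟨1,1,0,0,0,-1,-1⟩,[])],[(⟨1,1,0,0,0,0,-2⟩,[])],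
    [(⟨1,0,0,0,1,-1,-1⟩,[(2,13348),(2,10020),(2,15460),(2,14608),(2,11300),(2,16016),(3,15492),(2,15888),(2,13860),(2,15396)]),
     (⟨2,1,0,0,0,0,-3⟩,[(2,12580),(2,12388),(2,13348),(2,12324),(4,12868),(3,12420),(2,12324),(2,12580),(2,12324)]),
     (⟨2,0,0,0,-1,0,-1⟩,[(2,13156),(2,13604),(2,12068),(2,12772),(3,13188),(2,13092),(2,12772),(2,12580)]),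
     (⟨1,-1,0,-1,0,0,1⟩,[(2,14436),(2,14436),(2,12388),(4,13220),(2,13156),(2,8676),(2,15460)]),
     (⟨0,1,0,0,0,1,-2⟩,[(2,14372),(2,14480),(3,14468),(2,14864),(2,14736),(2,14352)]),
     (⟨1,-1,0,0,0,1,-1⟩,[(2,12516),(3,14468),(2,12324),(2,14628),(2,12324)]),
     (⟨1,0,1,-1,0,0,-1⟩,[(4,9092),(2,12388),(2,12772),(2,12388)]),
     (⟨0,2,-1,0,0,0,-1⟩,[(3,12516),(4,9092),(3,15492)]),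
     (⟨0,1,1,0,-1,0,-1⟩,[(2,9104),(3,14224)]),
     (⟨0,1,0,-1,1,0,-1⟩,[(2,12176)]),
     (⟨1,2,0,0,0,-1,-2⟩,[])],
    [(⟨1,0,0,1,0,-1,-1⟩,[(2,11556),(2,13476),(2,13348),(2,14416),(2,15504),(2,15396),(3,8080),(2,16016),(3,7312),(2,9444),(3,15492)]),
     (⟨0,1,0,0,1,-1,-1⟩,[(2,14736),(3,16020),(2,14608),(2,16016),(2,8996),(3,12948),(2,15888),(3,7824),(2,15716),(2,12580)]),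
     (⟨0,1,0,1,0,0,-2⟩,[(3,12436),(2,12388),(2,12432),(2,12452),(3,12436),(2,12944),(3,13444),(2,12388),(2,12388)]),
     (⟨1,-1,-1,0,0,0,1⟩,[(2,12324),(4,9108),(3,13028),(3,12948),(2,12580),(3,13540),(2,12388),(2,12324)]),
     (⟨1,0,0,0,0,1,-2⟩,[(2,14480),(2,12324),(3,13968),(2,14864),(3,14468),(2,14436),(3,14468)]),
     (⟨1,2,0,-1,0,0,-2⟩,[(2,12516),(4,12820),(2,12580),(4,7056),(2,12516),(2,12324)]),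
     (⟨0,2,0,0,-1,0,-1⟩,[(3,8420),(2,13092),(3,12164),(2,13156),(2,12324)]),
     (⟨1,0,-1,0,1,0,-1⟩,[(3,5008),(3,9444),(4,9060),(3,12516)]),
     (⟨2,1,0,0,-1,0,-2⟩,[(3,8080),(2,13156),(3,13188)]),
     (⟨0,1,-1,0,0,1,-1⟩,[(4,14916),(3,14468)]),
     (⟨2,0,0,-1,0,0,-1⟩,[(4,13220)]),
     (⟨1,-1,1,0,0,0,-1⟩,[])],
    [(⟨1,-1,0,1,0,0,-1⟩,[(2,8420),(4,13220),(2,15396),(2,12324),(2,12836),(2,12324),(2,12836),(2,15396),(2,14372)]),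
     (⟨1,0,0,-1,0,1,-1⟩,[(4,12180),(2,11408),(2,12516),(2,14692),(2,12388),(2,13968),(2,12516),(2,14436)]),
     (⟨2,0,-1,0,0,0,-1⟩,[(3,13540),(4,9108),(3,12948),(3,12436),(3,12948),(3,15508),(3,14484)]),
     (⟨1,0,1,0,0,-1,-1⟩,[(2,13348),(2,13604),(2,13348),(2,14864),(2,15396),(2,11792)]),
     (⟨0,1,1,-1,0,0,-1⟩,[(2,12772),(4,12820),(2,12944),(2,12516),(2,15248)]),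
     (⟨1,-1,0,0,-1,0,1⟩,[(2,12580),(2,12836),(2,12068),(2,10020)]),
     (⟨1,2,0,0,0,0,-3⟩,[(2,12324),(2,12324),(2,13348)]),
     (⟨1,0,0,0,1,0,-2⟩,[(2,12324),(2,13840)]),
     (⟨0,2,0,0,0,-1,-1⟩,[(2,11300)]),
     (⟨0,1,0,0,-1,1,-1⟩,[])],
    [(⟨0,2,0,0,0,0,-2⟩,[(2,12324)]),
     (⟨2,0,0,0,0,0,-2⟩,[])],
    [(⟨0,1,1,0,0,0,-2⟩,[(2,12324),(3,12432),(2,13348),(2,13348),(2,12580),(3,14480),(2,12388),(3,12688),(2,12324)]),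
     (⟨1,-2,0,0,0,0,1⟩,[(3,8420),(2,14564),(2,15396),(2,13092),(3,14484),(2,12388),(2,13092),(2,12836)]),
     (⟨0,1,-1,1,0,0,-1⟩,[(4,8080),(3,13444),(3,12676),(3,8420),(4,5008),(5,7824),(3,12420)]),
     (⟨0,1,0,-1,0,1,-1⟩,[(2,13540),(2,14224),(4,14868),(2,13540),(2,12176),(2,14372)]),
     (⟨2,0,0,0,0,-1,-1⟩,[(2,14244),(3,11412),(2,13540),(2,13348),(2,12068)]),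
     (⟨1,0,0,1,-1,0,-1⟩,[(3,8080),(2,13200),(2,13092),(2,8996)]),
     (⟨1,0,-1,0,0,1,-1⟩,[(4,7056),(3,8080),(3,11492)]),
     (⟨2,1,0,-1,0,0,-2⟩,[(2,12388),(2,12516)]),
     (⟨1,2,0,0,-1,0,-2⟩,[(2,12324)]),
     (⟨1,-1,0,0,1,0,-1⟩,[])],
    [(⟨3,0,0,0,0,0,-3⟩,[(2,12388),(2,12580),(2,13348),(2,12324),(2,12324),(3,12420)]),
     (⟨0,1,0,1,-1,0,-1⟩,[(2,12880),(2,12132),(2,15248),(2,8420),(5,11856)]),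
     (⟨0,1,0,0,1,0,-2⟩,[(2,13860),(2,14864),(2,12836),(3,12688)]),
     (⟨1,-1,0,0,0,-1,1⟩,[(3,11412),(2,11492),(3,9444)]),
     (⟨0,1,1,0,0,-1,-1⟩,[(2,15396),(3,15504)]),
     (⟨0,2,0,-1,0,0,-1⟩,[(4,8996)]),
     (⟨1,2,-1,0,0,0,-2⟩,[])],
    [(⟨0,3,0,0,0,0,-3⟩,[(2,12324),(2,12580),(2,12324),(2,12388),(3,12436)]),
     (⟨1,0,0,1,0,0,-2⟩,[(2,12944),(2,12452),(2,12688),(4,12880)]),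
     (⟨1,0,1,0,-1,0,-1⟩,[(2,13092),(2,9104),(3,13200)]),
     (⟨2,-1,0,0,0,0,-1⟩,[(2,13028),(3,8420)]),
     (⟨1,0,0,-1,1,0,-1⟩,[(5,11664)]),
     (⟨2,1,-1,0,0,0,-2⟩,[])],
    [(⟨0,1,0,1,0,-1,-1⟩,[(3,12436),(2,11856),(3,8080),(2,15460),(2,12388)]),
     (⟨1,0,-1,1,0,0,-1⟩,[(3,14224),(3,8676),(4,7056),(3,12432)]),
     (⟨1,0,0,0,-1,1,-1⟩,[(3,7056),(2,11792),(2,12580)]),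
     (⟨0,1,-1,0,1,0,-1⟩,[(3,8080),(3,12944)]),
     (⟨2,1,0,0,0,-1,-2⟩,[(3,13456)]),
     (⟨1,0,1,0,0,0,-2⟩,[])]],
   by decide +kernel⟩

theorem c1_1 : Chk 1 1 3 (kOf ⟨1,1,1,0,0,-1,-1⟩) :=
  ⟨[⟨1,1,-2,-2,-2,0,0⟩,⟨1,-2,1,-2,-2,0,0⟩,⟨1,1,1,0,3,0,3⟩,⟨2,-1,-1,2,2,0,0⟩,⟨1,1,1,0,3,3,0⟩,
    ⟨0,0,2,0,2,0,0⟩,⟨0,0,-2,-2,0,0,-2⟩,⟨0,0,-2,-2,0,-2,0⟩,⟨0,2,0,0,2,0,0⟩,⟨0,-2,0,-2,0,0,-2⟩,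
    ⟨0,-2,0,0,0,-2,0⟩],
   [(5,6,14672),(5,6,14660),(3,5,11840),(5,6,14356),(3,6,14912),(2,4,15888),(4,5,7760),(4,6,13904),
    (1,4,15876),(4,5,7748),(3,4,10116)],
   [[(⟨0,1,1,0,0,-1,-1⟩,[])],[(⟨1,0,1,0,0,-1,-1⟩,[])],[(⟨1,1,0,0,0,-1,-1⟩,[])],[(⟨1,1,1,-1,0,-1,-1⟩,[])],[(⟨1,1,1,0,-1,-1,-1⟩,[])],[(⟨1,1,1,0,0,-2,-1⟩,[])],[(⟨1,1,1,0,0,-1,-2⟩,[])]],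
   by decide +kernel⟩

theorem c1_2 : Chk 1 1 3 (kOf ⟨1,1,1,0,0,0,-2⟩) :=
  ⟨[⟨1,1,-2,1,-2,-2,0⟩,⟨-1,2,-1,2,2,2,0⟩,⟨2,-1,-1,2,2,0,0⟩,⟨1,1,-2,-2,1,-2,0⟩,⟨1,1,-2,-2,-2,1,0⟩,
    ⟨-2,0,0,-2,0,-2,0⟩,⟨0,2,0,2,2,0,0⟩,⟨0,0,2,0,2,2,0⟩,⟨2,-1,-1,0,2,2,0⟩],
   [(6,7,14884),(6,8,13668),(5,6,14356),(6,7,14500),(6,7,12964),(0,3,12692),(1,3,12676),(2,4,13840),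
    (3,6,12436)],
   [[(⟨0,1,1,0,0,0,-2⟩,[])],[(⟨1,0,1,0,0,0,-2⟩,[])],[(⟨1,1,0,0,0,0,-2⟩,[])],[(⟨1,1,1,-1,0,0,-2⟩,[])],[(⟨1,1,1,0,-1,0,-2⟩,[])],[(⟨1,1,1,0,0,-1,-2⟩,[])],[(⟨1,1,1,0,0,0,-3⟩,[])]],
   by decide +kernel⟩

theorem c1_3 : Chk 1 1 3 (kOf ⟨2,0,0,0,0,0,-1⟩) :=
  ⟨[⟨2,2,2,0,0,0,2⟩,⟨0,-2,-2,0,0,-2,0⟩,⟨0,-2,-2,-2,-2,0,0⟩,⟨0,0,2,0,2,2,0⟩,⟨0,0,2,2,0,0,0⟩,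
    ⟨0,-2,0,-2,0,-2,0⟩,⟨1,0,2,2,0,2,2⟩,⟨-1,-2,0,0,-2,0,-2⟩,⟨-1,-2,-2,-2,0,0,-2⟩,⟨1,2,2,2,0,0,0⟩,
    ⟨0,-2,0,0,-2,0,0⟩,⟨1,2,2,0,2,2,2⟩,⟨1,2,2,0,2,2,0⟩],
   [(1,2,8164),(3,4,10132),(5,6,14676),(1,3,6884),(1,4,5028),(2,4,10084),(1,4,11172),(2,3,6628),
    (4,5,7764),(1,2,16228),(2,3,8676),(3,13,5604),(1,2,13796)],
   [[(⟨2,-1,0,0,0,0,-1⟩,[])],[(⟨2,0,-1,0,0,0,-1⟩,[])],[(⟨2,0,0,-1,0,0,-1⟩,[])],[(⟨2,0,0,0,-1,0,-1⟩,[])],[(⟨2,0,0,0,0,-1,-1⟩,[])],[(⟨2,0,0,0,0,0,-2⟩,[])],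
    [(⟨1,-1,0,0,0,1,-1⟩,[(2,7716),(2,15204),(2,7396),(3,11492),(3,14484)]),
     (⟨1,0,0,0,1,-1,-1⟩,[(1,15940),(1,16004),(1,15908),(1,14628)]),
     (⟨1,0,0,1,-1,0,-1⟩,[(1,13188),(1,13220),(1,12900)]),
     (⟨3,0,0,-1,0,0,-2⟩,[(4,9060),(1,12452)]),
     (⟨1,1,-1,0,0,0,-1⟩,[(1,12324)]),
     (⟨1,0,1,0,0,0,-2⟩,[])],
    [(⟨3,0,-1,0,0,0,-2⟩,[(1,13092),(1,12836),(1,14564),(3,15508),(4,5028)]),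
     (⟨1,0,1,0,-1,0,-1⟩,[(1,12820),(1,12180),(1,15140),(2,5092)]),
     (⟨1,0,0,0,1,0,-2⟩,[(1,13956),(1,14852),(2,12708)]),
     (⟨1,0,0,-1,0,1,-1⟩,[(1,11396),(2,6372)]),
     (⟨1,1,0,0,0,-1,-1⟩,[(2,15524)]),
     (⟨1,-1,0,1,0,0,-1⟩,[])],
    [(⟨3,0,0,0,0,0,-3⟩,[])],
    [(⟨1,-1,0,0,1,0,-1⟩,[(2,4900),(2,15972),(2,5092),(2,12836),(3,7908)]),
     (⟨3,0,0,0,-1,0,-2⟩,[(1,16004),(1,13028),(2,12580),(1,12068)]),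
     (⟨1,0,0,1,0,-1,-1⟩,[(1,15508),(2,13476),(1,11364)]),
     (⟨1,0,1,-1,0,0,-1⟩,[(2,12388),(1,13540)]),
     (⟨1,1,0,0,0,0,-2⟩,[(3,14484)]),
     (⟨1,0,-1,0,0,1,-1⟩,[])],
    [(⟨1,0,0,0,-1,1,-1⟩,[(1,10020),(1,11796),(2,14116),(1,15236),(1,13956)]),
     (⟨1,0,-1,0,1,0,-1⟩,[(1,15652),(3,8676),(1,9188),(1,12708)]),
     (⟨1,0,1,0,0,-1,-1⟩,[(3,15508),(1,15524),(1,14484)]),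
     (⟨3,-1,0,0,0,0,-2⟩,[(2,12516),(2,12388)]),
     (⟨1,1,0,-1,0,0,-1⟩,[(1,12420)]),
     (⟨1,0,0,1,0,0,-2⟩,[])],
    [(⟨1,1,0,0,-1,0,-1⟩,[(1,9092),(1,14852),(1,9188),(2,13092),(2,14116)]),
     (⟨1,0,0,-1,1,0,-1⟩,[(1,14724),(1,8676),(2,12772),(1,12164)]),
     (⟨1,0,0,0,0,1,-2⟩,[(1,14436),(2,13348),(1,14340)]),
     (⟨1,0,-1,1,0,0,-1⟩,[(3,4324),(1,11492)]),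
     (⟨1,-1,1,0,0,0,-1⟩,[(3,6372)]),
     (⟨3,0,0,0,0,-1,-2⟩,[])]],
   by decide +kernel⟩

theorem c1_4 : Chk 1 1 3 (kOf ⟨2,1,0,0,0,-1,-1⟩) :=
  ⟨[⟨1,-2,1,-2,-2,0,0⟩,⟨-1,-1,-3,0,-3,0,-3⟩,⟨-1,-1,-3,-3,-3,-3,0⟩,⟨-1,-1,-3,-3,0,0,-3⟩,⟨1,-2,-2,1,1,0,0⟩,
    ⟨1,1,3,3,3,0,0⟩,⟨0,-2,0,0,-2,0,-2⟩,⟨0,-2,-2,0,-2,-2,0⟩,⟨0,2,0,2,0,0,0⟩],
   [(5,6,14660),(3,5,7568),(6,7,15012),(4,5,7760),(5,6,14356),(2,3,15760),(2,3,6628),(3,6,13716),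
    (1,3,15492)],
   [[(⟨1,1,0,0,0,-1,-1⟩,[])],[(⟨2,0,0,0,0,-1,-1⟩,[])],[(⟨2,1,-1,0,0,-1,-1⟩,[])],[(⟨2,1,0,-1,0,-1,-1⟩,[])],[(⟨2,1,0,0,-1,-1,-1⟩,[])],[(⟨2,1,0,0,0,-2,-1⟩,[])],[(⟨2,1,0,0,0,-1,-2⟩,[])]],
   by decide +kernel⟩

theorem c1_5 : Chk 1 1 3 (kOf ⟨2,1,0,0,0,0,-2⟩) :=
  ⟨[⟨-1,2,-1,-1,2,2,0⟩,⟨-1,2,2,2,-1,2,0⟩,⟨-2,-2,-3,0,0,0,-3⟩,⟨1,-2,0,-2,-2,1,0⟩,⟨2,2,0,3,0,3,3⟩,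
    ⟨0,0,-2,0,-2,-2,0⟩,⟨0,2,2,0,0,0,0⟩,⟨0,0,-2,-2,-2,0,0⟩],
   [(6,8,13604),(6,10,13908),(3,4,7056),(2,6,12644),(2,4,11152),(0,1,14884),(1,2,12324),(0,1,12964)],
   [[(⟨1,1,0,0,0,0,-2⟩,[])],[(⟨2,0,0,0,0,0,-2⟩,[])],[(⟨2,1,-1,0,0,0,-2⟩,[])],[(⟨2,1,0,-1,0,0,-2⟩,[])],[(⟨2,1,0,0,-1,0,-2⟩,[])],[(⟨2,1,0,0,0,-1,-2⟩,[])],[(⟨2,1,0,0,0,0,-3⟩,[])],
    [(⟨3,0,0,0,0,0,-3⟩,[])],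
    [(⟨1,1,0,0,-1,0,-1⟩,[])],
    [(⟨1,1,0,0,0,-1,-1⟩,[])],
    [(⟨1,1,-1,0,0,0,-1⟩,[])],
    [(⟨1,1,0,-1,0,0,-1⟩,[])]],
   by decide +kernel⟩

theorem c1_6 : Chk 1 1 3 (kOf ⟨3,0,0,0,0,-1,-1⟩) :=
  ⟨[⟨2,3,3,0,0,3,0⟩,⟨1,0,3,3,3,3,0⟩,⟨-1,-1,-3,0,-3,0,-3⟩,⟨1,3,1,3,3,0,0⟩,⟨-1,-3,0,0,-3,-3,0⟩,
    ⟨0,2,2,2,0,0,0⟩,⟨-2,-3,0,-3,0,-3,-3⟩,⟨-1,-3,0,0,0,0,-3⟩],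
   [(1,2,14308),(1,6,15012),(3,5,7568),(1,3,15748),(2,3,9700),(0,4,15956),(2,4,5988),(2,3,6884)],
   [[(⟨2,0,0,0,0,-1,-1⟩,[])],[(⟨3,-1,0,0,0,-1,-1⟩,[])],[(⟨3,0,-1,0,0,-1,-1⟩,[])],[(⟨3,0,0,-1,0,-1,-1⟩,[])],[(⟨3,0,0,0,-1,-1,-1⟩,[])],[(⟨3,0,0,0,0,-2,-1⟩,[])],[(⟨3,0,0,0,0,-1,-2⟩,[])]],
   by decide +kernel⟩

theorem c1_7 : Chk 1 1 3 (kOf ⟨3,0,0,0,0,0,-2⟩) :=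
  ⟨[⟨-2,-3,-3,0,0,0,-3⟩,⟨1,3,3,0,3,3,0⟩,⟨1,1,3,3,0,3,0⟩,⟨-2,-3,0,0,0,-3,-3⟩,⟨2,0,3,0,2,3,3⟩,
    ⟨0,2,2,2,2,2,0⟩,⟨2,0,3,3,0,2,3⟩,⟨2,2,0,3,0,3,3⟩,⟨-1,-3,0,0,0,0,0⟩],
   [(3,4,7060),(1,2,13796),(2,3,14224),(2,3,5860),(1,3,10468),(0,13,13668),(1,4,9124),(2,4,11152),
    (1,18,10980)],
   [[(⟨2,0,0,0,0,0,-2⟩,[])],[(⟨3,-1,0,0,0,0,-2⟩,[])],[(⟨3,0,-1,0,0,0,-2⟩,[])],[(⟨3,0,0,-1,0,0,-2⟩,[])],[(⟨3,0,0,0,-1,0,-2⟩,[])],[(⟨3,0,0,0,0,-1,-2⟩,[])],[(⟨3,0,0,0,0,0,-3⟩,[])],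
    [(⟨2,0,-1,0,0,0,-1⟩,[])],
    [(⟨2,0,0,-1,0,0,-1⟩,[])],
    [(⟨2,0,0,0,-1,0,-1⟩,[])],
    [(⟨2,-1,0,0,0,0,-1⟩,[])],
    [(⟨2,0,0,0,0,-1,-1⟩,[])]],
   by decide +kernel⟩

end Pool.Agent.MP_92a546_co
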