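import Pool.Agent.MP_92a546_co.Check

/-! Certificates for simplices of normalized volume 2. -/

namespace Pool.Agent.MP_92a546_co

theorem c2_0 : Chk 2 4 3 [⟨1,0,0,0,0,0,-1⟩] :=
  ⟨[⟨0,0,0,-2,-2,-2,0⟩,⟨0,2,2,0,0,2,0⟩,⟨0,0,-2,0,-2,0,0⟩,⟨0,0,0,0,0,-2,0⟩,⟨0,0,0,0,-2,0,0⟩],
   [(0,1,14980),(0,3,13460),(0,1,12836),(0,1,14340),(0,1,12804)],
   [[(⟨1,0,0,0,0,0,-1⟩,[])],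
    [(⟨1,-2,0,0,0,0,1⟩,[])],
    [(⟨1,0,0,0,0,-2,1⟩,[])],
    [(⟨3,0,0,0,0,0,-3⟩,[])],
    [(⟨1,0,-2,0,0,0,1⟩,[])],
    [(⟨1,-2,2,0,0,0,-1⟩,[(2,12324),(3,4836),(2,15652),(2,13540),(3,4324)]),
     (⟨1,2,0,0,0,0,-3⟩,[(2,12580),(2,13348),(2,12388),(3,12436)]),
     (⟨3,0,0,0,-2,0,-1⟩,[(1,15876),(1,12164),(1,9188)]),
     (⟨1,0,0,0,2,-2,-1⟩,[(1,11396),(1,15908)]),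
     (⟨1,0,0,-2,0,2,-1⟩,[(1,8420)]),
     (⟨1,0,-2,2,0,0,-1⟩,[])],
    [(⟨1,2,-2,0,0,0,-1⟩,[(3,8420),(1,12836),(1,12516),(1,15140),(3,9444)]),
     (⟨1,-2,0,2,0,0,-1⟩,[(2,12580),(2,4324),(2,14116),(2,7396)]),
     (⟨1,0,0,0,2,0,-3⟩,[(1,12932),(1,12804),(1,14852)]),
     (⟨1,0,2,-2,0,0,-1⟩,[(1,15236),(1,14564)]),
     (⟨1,0,0,0,-2,2,-1⟩,[(1,11780)]),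
     (⟨3,0,0,0,0,-2,-1⟩,[])],
    [(⟨1,0,2,0,-2,0,-1⟩,[(1,12932),(1,13220),(1,15140),(2,4900),(1,13092)]),
     (⟨1,0,0,2,0,0,-3⟩,[(1,12420),(1,14468),(2,12388),(1,12452)]),
     (⟨3,0,0,-2,0,0,-1⟩,[(2,15460),(2,5092),(1,11492)]),
     (⟨1,2,0,0,0,-2,-1⟩,[(2,15396),(1,11300)]),
     (⟨1,-2,0,0,2,0,-1⟩,[(3,9444)]),
     (⟨1,0,-2,0,0,2,-1⟩,[])],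
    [(⟨1,2,0,0,-2,0,-1⟩,[(1,16004),(2,13092),(3,13204),(1,12836),(1,9092)]),
     (⟨1,0,0,2,0,-2,-1⟩,[(2,7204),(1,15524),(1,14372),(1,15492)]),
     (⟨1,-2,0,0,0,2,-1⟩,[(3,6372),(3,12436),(2,7396)]),
     (⟨3,0,-2,0,0,0,-1⟩,[(1,12324),(1,13028)]),
     (⟨1,0,2,0,0,0,-3⟩,[(1,12452)]),
     (⟨1,0,0,-2,2,0,-1⟩,[])],
    [(⟨1,0,-2,0,2,0,-1⟩,[(1,8996),(1,15396),(3,8676),(1,9188),(1,14372)]),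
     (⟨1,0,0,2,-2,0,-1⟩,[(1,15236),(2,13156),(1,13188),(1,14852)]),
     (⟨1,0,2,0,0,-2,-1⟩,[(3,15508),(1,15524),(1,14340)]),
     (⟨3,-2,0,0,0,0,-1⟩,[(2,12516),(2,13348)]),
     (⟨1,2,0,-2,0,0,-1⟩,[(1,14468)]),
     (⟨1,0,0,0,0,2,-3⟩,[])],
    [(⟨1,0,0,0,-2,0,1⟩,[])],
    [(⟨1,0,0,-2,0,0,1⟩,[])]],
   by decide +kernel⟩

theorem c2_1 : Chk 2 4 3 [⟨1,1,0,0,0,-1,-1⟩] :=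
  ⟨[⟨0,0,-2,-2,-2,0,0⟩,⟨-2,0,-2,-2,0,-2,0⟩,⟨0,2,0,2,0,2,0⟩,⟨0,0,0,0,-2,0,0⟩,⟨0,0,0,-2,0,0,0⟩],
   [(0,1,12964),(0,2,12580),(0,2,13412),(0,1,12804),(0,1,12420)],
   [[(⟨1,1,0,0,0,-1,-1⟩,[])],
    [(⟨1,-1,0,0,0,1,-1⟩,[])],
    [(⟨1,1,0,0,-2,1,-1⟩,[(2,13156),(1,15140),(2,14116)]),
     (⟨1,-1,0,-2,0,1,1⟩,[(4,2916),(2,15460)]),
     (⟨1,1,-2,0,0,-1,1⟩,[(3,6372)]),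
     (⟨3,-1,0,0,0,-1,-1⟩,[])],
    [(⟨1,-1,0,0,-2,1,1⟩,[(2,12772),(2,15652),(2,3364)]),
     (⟨1,1,0,-2,0,1,-1⟩,[(2,13540),(1,11396)]),
     (⟨1,-1,2,0,0,-1,-1⟩,[(2,7204)]),
     (⟨1,1,0,0,0,-3,1⟩,[])],
    [(⟨1,1,0,-2,0,-1,1⟩,[(2,7396),(2,3300),(1,11492)]),
     (⟨1,-1,0,0,2,-1,-1⟩,[(2,15396),(3,9444)]),
     (⟨1,-3,0,0,0,1,1⟩,[(3,8420)]),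
     (⟨1,1,-2,0,0,1,-1⟩,[])],
    [(⟨1,-1,0,0,0,-1,1⟩,[])],
    [(⟨1,1,0,0,-2,-1,1⟩,[(2,7972),(3,3988),(1,14852)]),
     (⟨1,-1,0,2,0,-1,-1⟩,[(3,15508),(2,13348)]),
     (⟨1,-1,-2,0,0,1,1⟩,[(3,12436)]),
     (⟨1,1,0,0,0,1,-3⟩,[])]],
   by decide +kernel⟩

theorem c2_2 : Chk 2 4 3 [⟨1,1,0,0,0,0,-2⟩] :=
  ⟨[⟨-2,-2,-2,0,0,0,-2⟩,⟨0,-4,-2,0,0,-2,-2⟩,⟨0,0,-2,0,-2,0,0⟩,⟨-2,-2,-2,-2,-2,0,-2⟩,⟨-2,-2,-2,-2,0,-2,-2⟩],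
   [(0,2,4068),(0,3,10468),(0,3,740),(0,2,3108),(0,2,804)],
   [[(⟨1,1,0,0,0,0,-2⟩,[])],
    [(⟨1,1,-2,0,0,0,0⟩,[])],
    [(⟨1,-1,0,0,0,0,0⟩,[])],
    [(⟨1,-1,-2,0,0,0,2⟩,[(3,13204),(3,15508),(3,12436),(3,228),(4,9108)]),
     (⟨1,-1,0,2,-2,0,0⟩,[(0,13828),(2,7972),(0,12836),(0,12676)]),
     (⟨1,-1,0,0,2,-2,0⟩,[(2,7204),(0,14372),(0,13956)]),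
     (⟨1,-1,0,0,0,2,-2⟩,[(3,8420),(2,7396)]),
     (⟨1,-3,2,0,0,0,0⟩,[(0,12452)]),
     (⟨3,-1,0,-2,0,0,0⟩,[])],
    [(⟨1,1,0,0,-2,0,0⟩,[])],
    [(⟨3,-1,0,0,0,-2,0⟩,[(0,14484),(2,15460),(0,14340),(0,14628),(2,7972)]),
     (⟨1,-1,-2,2,0,0,0⟩,[(4,916),(0,14372),(0,12580),(3,4836)]),
     (⟨1,-1,0,-2,0,0,2⟩,[(2,3300),(2,13156),(2,12388)]),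
     (⟨1,-3,0,0,0,2,0⟩,[(0,14852),(2,15396)]),
     (⟨1,-1,2,0,-2,0,0⟩,[(2,4900)]),
     (⟨1,-1,0,0,2,0,-2⟩,[])],
    [(⟨1,-1,0,2,0,0,-2⟩,[(2,13092),(2,13348),(3,15508),(2,5092),(2,4324)]),
     (⟨1,-3,0,0,2,0,0⟩,[(2,3876),(0,12836),(0,12804),(0,12932)]),
     (⟨1,-1,0,0,0,-2,2⟩,[(3,3220),(2,14116),(2,13540)]),
     (⟨1,-1,-2,0,0,2,0⟩,[(0,14868),(0,12388)]),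
     (⟨3,-1,0,0,-2,0,0⟩,[(0,12900)]),
     (⟨1,-1,2,-2,0,0,0⟩,[])],
    [(⟨1,-1,0,0,-2,2,0⟩,[(0,14596),(2,13092),(0,12868),(2,15652),(0,14628)]),
     (⟨1,-1,0,2,0,-2,0⟩,[(2,15396),(0,13444),(2,13540),(0,13476)]),
     (⟨1,-3,0,0,0,0,2⟩,[(2,12516),(2,12324),(3,8420)]),
     (⟨1,-1,0,-2,2,0,0⟩,[(2,13156),(0,12900)]),
     (⟨1,-1,2,0,0,0,-2⟩,[(3,4324)]),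
     (⟨3,-1,-2,0,0,0,0⟩,[])],
    [(⟨1,1,0,0,0,-2,0⟩,[])],
    [(⟨1,1,0,-2,0,0,0⟩,[])],
    [(⟨1,-1,-2,0,2,0,0⟩,[(3,13204),(3,916),(0,13348),(0,12948),(0,12452)]),
     (⟨3,-1,0,0,0,0,-2⟩,[(2,12580),(3,9444),(2,15460),(2,12516)]),
     (⟨1,-1,0,0,-2,0,2⟩,[(2,15652),(2,3940),(2,996)]),
     (⟨1,-1,2,0,0,-2,0⟩,[(0,14404),(0,14468)]),
     (⟨1,-1,0,-2,0,2,0⟩,[(0,12420)]),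
     (⟨1,-3,0,2,0,0,0⟩,[])],
    [(⟨3,-3,0,0,0,0,0⟩,[])]],
   by decide +kernel⟩

theorem c2_3 : Chk 2 4 3 [⟨1,1,1,0,-1,-1,-1⟩] :=
  ⟨[⟨2,2,-4,2,0,0,0⟩,⟨-4,-4,-4,-6,-6,-6,0⟩,⟨-2,4,-2,4,0,0,0⟩,⟨-2,-2,-2,-6,0,-6,0⟩,⟨0,0,0,-2,0,0,0⟩],
   [(0,1,16164),(0,1,14980),(0,2,16228),(0,1,15236),(0,1,12420)],
   [[(⟨1,1,1,0,-1,-1,-1⟩,[])],
    [(⟨1,-1,1,0,-1,-1,1⟩,[])],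
    [(⟨1,1,-1,0,-1,-1,1⟩,[])],
    [(⟨1,-1,1,0,-1,1,-1⟩,[])],
    [(⟨1,-1,-1,0,1,-1,1⟩,[])],
    [(⟨1,-1,-1,0,-1,1,1⟩,[])],
    [(⟨1,1,-1,0,1,-1,-1⟩,[])],
    [(⟨1,-1,1,0,1,-1,-1⟩,[])],
    [(⟨1,1,-1,0,-1,1,-1⟩,[])],
    [(⟨1,-1,-1,0,1,1,-1⟩,[])]],
   by decide +kernel⟩

theorem c2_4 : Chk 2 4 3 [⟨1,1,1,0,0,-1,-2⟩] :=
  ⟨[⟨2,2,-4,2,-4,0,0⟩,⟨-2,4,-2,4,4,0,0⟩,⟨-4,-4,-4,-6,-4,0,-6⟩,⟨-4,2,2,-4,2,0,0⟩,⟨2,2,-4,-4,0,0,0⟩,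
    ⟨-4,2,2,-4,-4,0,0⟩],
   [(0,1,15908),(0,2,15716),(0,1,11396),(0,3,15764),(0,1,16292),(0,3,15508)],
   [[(⟨1,1,1,0,0,-1,-2⟩,[])],
    [(⟨1,1,-1,0,0,1,-2⟩,[(1,11492)]),
     (⟨1,1,1,-2,0,-1,0⟩,[])],
    [(⟨1,1,1,0,-2,-1,0⟩,[(3,3988)]),
     (⟨1,-1,-1,0,0,-1,2⟩,[])],
    [(⟨1,-1,-1,0,0,1,0⟩,[])],
    [(⟨1,-1,1,0,0,1,-2⟩,[(2,7204)]),
     (⟨1,1,1,0,0,-3,0⟩,[])],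
    [(⟨1,1,-1,0,0,-1,0⟩,[])],
    [(⟨1,-1,1,0,0,-1,0⟩,[])]],
   by decide +kernel⟩

theorem c2_5 : Chk 2 4 3 [⟨1,1,1,0,0,0,-3⟩] :=
  ⟨[⟨2,2,-4,2,-4,-4,0⟩,⟨-2,4,-2,4,-2,4,0⟩,⟨-4,2,2,-4,-4,2,0⟩,⟨2,2,-4,-4,0,-4,0⟩,⟨-2,4,-2,-2,4,0,0⟩,
    ⟨-4,2,2,-4,-4,-4,0⟩],
   [(0,1,14884),(0,2,13412),(0,3,13460),(0,1,15268),(0,2,15652),(0,3,12436)],
   [[(⟨1,1,1,0,0,0,-3⟩,[])],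
    [(⟨1,-1,1,0,0,0,-1⟩,[])],
    [(⟨1,-1,-1,0,0,0,1⟩,[])],
    [(⟨1,1,1,0,0,-2,-1⟩,[])],
    [(⟨1,1,1,0,-2,0,-1⟩,[])],
    [(⟨1,1,-1,0,0,0,-1⟩,[])],
    [(⟨1,1,1,-2,0,0,-1⟩,[])]],
   by decide +kernel⟩

theorem c2_6 : Chk 2 4 3 [⟨2,0,0,0,0,-1,-1⟩] :=
  ⟨[⟨0,0,-2,-2,-2,0,0⟩,⟨-2,-2,-4,-4,-2,-4,0⟩,⟨0,2,0,2,0,0,0⟩,⟨0,0,0,0,-2,0,0⟩,⟨0,0,0,-2,0,0,0⟩],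
   [(0,1,12964),(0,1,14500),(0,2,12388),(0,1,12804),(0,1,12420)],
   [[(⟨2,0,0,0,0,-1,-1⟩,[])],
    [(⟨0,0,2,0,0,-3,1⟩,[(1,3236),(0,11792),(0,11412),(2,7204),(0,14608)]),
     (⟨2,0,0,-2,0,-1,1⟩,[(1,15236),(2,1252),(2,7396),(1,14468)]),
     (⟨0,0,2,0,-2,1,-1⟩,[(0,14244),(3,13204),(0,13840)]),
     (⟨0,2,0,-2,0,1,-1⟩,[(2,12516),(0,13956)]),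
     (⟨2,-2,0,0,0,1,-1⟩,[(2,12580)]),
     (⟨0,0,0,0,2,1,-3⟩,[])],
    [(⟨0,0,0,0,2,-1,-1⟩,[])],
    [(⟨2,0,0,0,0,-3,1⟩,[(1,14340),(1,11396),(2,7204),(1,11300),(1,11780)]),
     (⟨0,0,2,0,0,1,-3⟩,[(1,12452),(0,14484),(0,14864),(0,13860)]),
     (⟨2,0,0,-2,0,1,-1⟩,[(2,4324),(1,12164),(2,13156)]),
     (⟨0,2,0,-2,0,-1,1⟩,[(0,8100),(0,15236)]),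
     (⟨0,0,2,0,-2,-1,1⟩,[(0,10020)]),
     (⟨0,2,0,0,-2,1,-1⟩,[])],
    [(⟨0,2,-2,0,0,-1,1⟩,[(0,8100),(3,2276),(0,7716),(0,14436),(3,4324)]),
     (⟨0,0,0,2,-2,-1,1⟩,[(2,3940),(0,7744),(0,14912),(1,12068)]),
     (⟨2,-2,0,0,0,-1,1⟩,[(2,3364),(2,13348),(3,9444)]),
     (⟨0,0,0,0,2,-3,1⟩,[(0,14656),(1,11300)]),
     (⟨0,0,0,2,0,1,-3⟩,[(1,12452)]),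
     (⟨2,0,-2,0,0,1,-1⟩,[])],
    [(⟨0,0,0,2,0,-1,-1⟩,[])],
    [(⟨0,0,0,0,0,1,-1⟩,[])],
    [(⟨0,2,-2,0,0,1,-1⟩,[(0,14244),(0,11300),(1,12068),(2,13348),(0,13540)]),
     (⟨0,0,0,2,-2,1,-1⟩,[(0,11844),(1,2948),(1,14468),(0,14224)]),
     (⟨0,2,0,0,0,-3,1⟩,[(2,3364),(1,14340),(0,11412)]),
     (⟨2,0,0,0,-2,-1,1⟩,[(1,14852),(1,12164)]),
     (⟨2,0,0,0,0,1,-3⟩,[(1,14372)]),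
     (⟨0,0,2,-2,0,1,-1⟩,[])],
    [(⟨0,0,0,2,0,-3,1⟩,[(1,3236),(0,14404),(1,11780),(0,7812),(0,7312)]),
     (⟨2,0,-2,0,0,-1,1⟩,[(1,14372),(1,15140),(3,3988),(1,3300)]),
     (⟨0,2,0,0,0,1,-3⟩,[(2,12580),(0,14852),(0,14484)]),
     (⟨2,0,0,0,-2,1,-1⟩,[(2,4900),(1,15236)]),
     (⟨0,2,0,0,-2,-1,1⟩,[(0,12132)]),
     (⟨0,0,2,-2,0,-1,1⟩,[])],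
    [(⟨0,2,0,0,0,-1,-1⟩,[])],
    [(⟨0,0,2,0,0,-1,-1⟩,[])],
    [(⟨0,0,0,0,0,3,-3⟩,[])]],
   by decide +kernel⟩

theorem c2_7 : Chk 2 4 3 [⟨2,1,0,0,-1,-1,-1⟩] :=
  ⟨[⟨-4,-4,-6,0,-6,-6,0⟩,⟨-2,-2,-6,-6,0,-6,0⟩,⟨-2,4,-2,0,0,0,0⟩,⟨-2,-2,-6,0,-6,0,0⟩,⟨-2,-2,-2,-6,-6,0,0⟩,
    ⟨-2,-2,-6,0,0,0,-6⟩],
   [(0,1,15076),(0,1,15268),(0,2,16356),(0,1,16100),(0,1,16004),(0,1,12260)],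
   [[(⟨2,1,0,0,-1,-1,-1⟩,[])],
    [(⟨0,1,2,0,-1,-1,-1⟩,[(3,15508)]),
     (⟨2,-1,0,0,1,-1,-1⟩,[])],
    [(⟨0,1,0,0,-1,1,-1⟩,[])],
    [(⟨0,1,0,0,-1,-1,1⟩,[])],
    [(⟨0,3,0,0,-1,-1,-1⟩,[(2,13092)]),
     (⟨2,-1,0,0,-1,1,-1⟩,[])],
    [(⟨0,1,0,2,-1,-1,-1⟩,[(2,3940)]),
     (⟨2,-1,0,0,-1,-1,1⟩,[])],
    [(⟨0,1,0,0,1,-1,-1⟩,[])]],
   by decide +kernel⟩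

theorem c2_8 : Chk 2 4 3 [⟨2,1,0,0,0,-1,-2⟩] :=
  ⟨[⟨-2,4,-2,-2,4,0,0⟩,⟨-4,-4,-6,0,-6,0,-6⟩,⟨-2,4,4,4,-2,0,0⟩,⟨-4,-4,-6,-6,0,0,-6⟩,⟨-2,-2,-6,0,0,-6,0⟩],
   [(0,2,15652),(0,1,12004),(0,4,15956),(0,1,12196),(0,1,15332)],
   [[(⟨2,1,0,0,0,-1,-2⟩,[])],
    [(⟨2,1,-2,0,0,-1,0⟩,[(1,15396),(3,6372)]),
     (⟨0,1,2,0,0,-1,-2⟩,[(3,12436)]),
     (⟨2,-1,0,0,0,1,-2⟩,[])],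
    [(⟨0,1,0,-2,0,1,0⟩,[])],
    [(⟨0,1,0,0,-2,1,0⟩,[])],
    [(⟨0,3,0,0,0,-3,0⟩,[])],
    [(⟨2,1,0,-2,0,-1,0⟩,[(2,3300)]),
     (⟨0,3,0,0,0,-1,-2⟩,[])],
    [(⟨0,1,0,0,2,-1,-2⟩,[(1,15876)]),
     (⟨2,1,0,0,-2,-1,0⟩,[])],
    [(⟨0,1,-2,0,0,1,0⟩,[])],
    [(⟨0,1,0,0,0,1,-2⟩,[])],
    [(⟨0,1,0,2,0,-1,-2⟩,[(2,3172)]),
     (⟨2,1,0,0,0,-3,0⟩,[])],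
    [(⟨0,1,0,0,0,-1,0⟩,[])],
    [(⟨2,-1,0,0,0,-1,0⟩,[])]],
   by decide +kernel⟩

theorem c2_9 : Chk 2 4 3 [⟨2,1,0,0,0,0,-3⟩] :=
  ⟨[⟨-2,4,-2,-2,4,4,0⟩,⟨-2,4,4,4,-2,-2,0⟩,⟨-2,4,-2,0,-2,4,0⟩,⟨-2,4,-2,0,4,-2,0⟩,⟨-2,4,-2,4,-2,-2,0⟩,
    ⟨-2,4,4,-2,-2,-2,0⟩],
   [(0,2,13604),(0,4,12884),(0,2,13540),(0,2,12772),(0,2,12388),(0,3,12436)],
   [[(⟨2,1,0,0,0,0,-3⟩,[])],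
    [(⟨2,1,-2,0,0,0,-1⟩,[(1,12324)]),
     (⟨0,1,2,0,0,0,-3⟩,[])],
    [(⟨0,1,0,-2,0,0,1⟩,[])],
    [(⟨2,1,0,0,0,-2,-1⟩,[(1,14340)]),
     (⟨0,1,0,0,0,2,-3⟩,[])],
    [(⟨2,-1,0,0,0,0,-1⟩,[])],
    [(⟨0,1,0,0,0,0,-1⟩,[])],
    [(⟨2,1,0,-2,0,0,-1⟩,[(1,12420)]),
     (⟨0,1,0,2,0,0,-3⟩,[])],
    [(⟨2,1,0,0,-2,0,-1⟩,[(1,12804)]),
     (⟨0,1,0,0,2,0,-3⟩,[])],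
    [(⟨0,1,0,0,-2,0,1⟩,[])],
    [(⟨0,3,0,0,0,0,-3⟩,[])],
    [(⟨0,1,0,0,0,-2,1⟩,[])],
    [(⟨0,1,-2,0,0,0,1⟩,[])]],
   by decide +kernel⟩

theorem c2_10 : Chk 2 4 3 [⟨3,0,0,0,-1,-1,-1⟩] :=
  ⟨[⟨2,0,6,6,0,0,6⟩,⟨4,0,6,0,6,0,6⟩,⟨2,6,6,0,6,0,0⟩,⟨-2,-2,-6,-6,0,-6,0⟩,⟨-4,-4,-6,0,0,-6,-6⟩,
    ⟨4,0,6,6,6,6,0⟩],
   [(0,9,10148),(0,8,9956),(0,7,15844),(0,1,15268),(0,1,11236),(0,11,15012)],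
   [[(⟨3,0,0,0,-1,-1,-1⟩,[])],
    [(⟨1,0,2,0,-1,-1,-1⟩,[])],
    [(⟨1,0,0,2,-1,-1,-1⟩,[])],
    [(⟨1,0,0,0,-1,-1,1⟩,[])],
    [(⟨1,0,0,0,-1,1,-1⟩,[])],
    [(⟨1,2,0,0,-1,-1,-1⟩,[])],
    [(⟨1,0,0,0,1,-1,-1⟩,[])]],
   by decide +kernel⟩

theorem c2_11 : Chk 2 4 3 [⟨3,0,0,0,0,-1,-2⟩] :=
  ⟨[⟨4,6,6,0,0,0,6⟩,⟨2,6,6,0,0,6,0⟩,⟨4,6,4,6,0,0,6⟩,⟨4,6,4,0,6,0,6⟩,⟨2,0,6,0,0,6,0⟩,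
    ⟨4,0,6,6,6,0,6⟩],
   [(0,7,8164),(0,7,14308),(0,2,8036),(0,2,7652),(0,8,6628),(0,10,11940)],
   [[(⟨3,0,0,0,0,-1,-2⟩,[])],
    [(⟨3,-2,0,0,0,-1,0⟩,[(2,15460)]),
     (⟨1,0,0,2,0,-1,-2⟩,[])],
    [(⟨1,0,0,0,-2,1,0⟩,[])],
    [(⟨3,0,0,0,0,-3,0⟩,[])],
    [(⟨1,0,0,-2,0,1,0⟩,[])],
    [(⟨1,-2,0,0,0,1,0⟩,[])],
    [(⟨1,2,0,0,0,-1,-2⟩,[(2,15652)]),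
     (⟨3,0,0,0,-2,-1,0⟩,[])],
    [(⟨1,0,0,0,2,-1,-2⟩,[(1,16004)]),
     (⟨3,0,0,-2,0,-1,0⟩,[])],
    [(⟨1,0,0,0,0,-1,0⟩,[])],
    [(⟨1,0,-2,0,0,1,0⟩,[])],
    [(⟨1,0,0,0,0,1,-2⟩,[])],
    [(⟨1,0,2,0,0,-1,-2⟩,[(1,15396)]),
     (⟨3,0,-2,0,0,-1,0⟩,[])]],
   by decide +kernel⟩

theorem c2_12 : Chk 2 4 3 [⟨3,0,0,0,0,0,-3⟩] :=
  ⟨[⟨0,0,0,-6,-6,-6,0⟩,⟨0,6,6,0,0,6,0⟩,⟨0,0,-6,0,-6,0,0⟩,⟨0,0,0,0,0,-6,0⟩,⟨0,0,0,0,-6,0,0⟩],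
   [(0,1,14980),(0,3,13460),(0,1,12836),(0,1,14340),(0,1,12804)],
   [[(⟨3,0,0,0,0,0,-3⟩,[])],
    [(⟨1,0,-2,0,0,0,1⟩,[])],
    [(⟨1,0,0,-2,0,0,1⟩,[])],
    [(⟨1,0,0,0,0,0,-1⟩,[])],
    [(⟨1,0,0,0,0,-2,1⟩,[])],
    [(⟨1,0,2,0,-2,0,-1⟩,[(1,15876),(1,13092),(1,13220),(2,7972),(1,12932)]),
     (⟨1,0,0,0,2,-2,-1⟩,[(1,15908),(1,16004),(2,7204),(1,14468)]),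
     (⟨3,0,-2,0,0,0,-1⟩,[(4,9108),(3,6372),(1,12452)]),
     (⟨1,2,0,-2,0,0,-1⟩,[(2,12516),(1,12420)]),
     (⟨1,-2,0,0,0,2,-1⟩,[(2,12388)]),
     (⟨1,0,0,2,0,0,-3⟩,[])],
    [(⟨1,0,0,-2,2,0,-1⟩,[(1,9092),(1,12452),(1,11492),(2,4324),(1,12164)]),
     (⟨1,2,0,0,-2,0,-1⟩,[(1,12836),(1,12068),(2,13092),(2,14116)]),
     (⟨1,0,2,0,0,0,-3⟩,[(1,12324),(3,12436),(1,14372)]),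
     (⟨1,0,-2,0,0,2,-1⟩,[(3,9444),(1,11300)]),
     (⟨1,-2,0,2,0,0,-1⟩,[(2,7396)]),
     (⟨3,0,0,0,0,-2,-1⟩,[])],
    [(⟨1,0,0,0,-2,0,1⟩,[])],
    [(⟨1,-2,0,0,0,0,1⟩,[])],
    [(⟨1,0,0,2,-2,0,-1⟩,[(1,15236),(1,13188),(1,8996),(2,13156),(1,14852)]),
     (⟨1,2,0,0,0,-2,-1⟩,[(2,15460),(1,12068),(2,15396),(1,14340)]),
     (⟨3,0,0,-2,0,0,-1⟩,[(1,9188),(4,5028),(1,14468)]),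
     (⟨1,0,-2,0,2,0,-1⟩,[(3,4324),(1,14372)]),
     (⟨1,-2,2,0,0,0,-1⟩,[(2,13348)]),
     (⟨1,0,0,0,0,2,-3⟩,[])],
    [(⟨1,0,0,0,2,0,-3⟩,[(1,12804),(1,12836),(1,14852),(1,12932),(2,12580)]),
     (⟨1,0,0,0,-2,2,-1⟩,[(1,15140),(1,11780),(1,15236),(2,14116)]),
     (⟨1,2,-2,0,0,0,-1⟩,[(1,15524),(1,12516),(3,8420)]),
     (⟨1,0,0,2,0,-2,-1⟩,[(1,15492),(2,15460)]),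
     (⟨1,0,2,-2,0,0,-1⟩,[(4,9108)]),
     (⟨3,-2,0,0,0,0,-1⟩,[])],
    [(⟨1,-2,0,0,2,0,-1⟩,[(2,4900),(2,13540),(2,12324),(3,4836),(2,7972)]),
     (⟨3,0,0,0,-2,0,-1⟩,[(1,12164),(2,12580),(1,9188),(1,15908)]),
     (⟨1,0,0,-2,0,2,-1⟩,[(2,12388),(1,8420),(1,11396)]),
     (⟨1,2,0,0,0,0,-3⟩,[(3,12436),(2,13348)]),
     (⟨1,0,-2,2,0,0,-1⟩,[(1,15396)]),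
     (⟨1,0,2,0,0,-2,-1⟩,[])]],
   by decide +kernel⟩

end Pool.Agent.MP_92a546_co
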