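import Pool.Agent.MP_92a546_co.Check

/-! Certificates for simplices of normalized volume 3. -/

namespace Pool.Agent.MP_92a546_co

theorem c3_0 : Chk 3 9 3 [⟨1,0,0,0,0,0,-1⟩] :=
  ⟨[⟨0,0,0,-3,-3,-3,0⟩,⟨0,3,3,0,0,3,0⟩,⟨0,0,-3,0,-3,-3,0⟩,⟨0,0,-3,-3,0,-3,0⟩],
   [(0,1,14980),(0,3,13460),(0,1,14884),(0,1,14500)],
   [[(⟨1,0,0,0,0,0,-1⟩,[])],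
    [(⟨2,0,0,0,0,0,-2⟩,[])],
    [(⟨1,-3,0,0,0,0,2⟩,[])],
    [(⟨2,0,-3,0,0,0,1⟩,[])],
    [(⟨1,0,0,0,-3,0,2⟩,[])],
    [(⟨2,0,0,0,-3,0,1⟩,[])],
    [(⟨1,0,0,0,0,-3,2⟩,[])],
    [(⟨1,0,0,-3,0,0,2⟩,[])],
    [(⟨2,0,0,-3,0,0,1⟩,[])],
    [(⟨2,-3,0,0,0,0,1⟩,[])],
    [(⟨1,0,-3,0,0,0,2⟩,[])],
    [(⟨2,0,0,0,0,-3,1⟩,[])]],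
   by decide +kernel⟩

theorem c3_1 : Chk 3 9 3 [⟨1,1,0,0,0,-1,-1⟩] :=
  ⟨[⟨-3,3,-3,-3,3,0,0⟩,⟨-3,0,-3,0,-3,-3,0⟩,⟨0,0,-3,0,-3,0,0⟩,⟨0,0,0,-3,-3,0,0⟩,⟨0,0,0,0,-3,0,0⟩],
   [(0,2,15652),(0,2,12388),(0,1,12836),(0,1,12932),(0,1,12804)],
   [[(⟨1,1,0,0,0,-1,-1⟩,[])],
    [(⟨1,-2,0,0,0,-1,2⟩,[])],
    [(⟨2,-1,0,0,0,1,-2⟩,[])],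
    [(⟨1,-2,0,0,0,2,-1⟩,[])],
    [(⟨2,-1,0,0,0,-2,1⟩,[])]],
   by decide +kernel⟩

theorem c3_2 : Chk 3 9 3 [⟨1,1,0,0,0,0,-2⟩] :=
  ⟨[⟨-3,3,-3,-3,0,3,0⟩,⟨-3,-3,-3,0,0,0,-3⟩,⟨0,-6,-3,0,0,0,-3⟩,⟨0,0,-3,0,0,0,0⟩,⟨-3,-3,-3,-3,-3,0,-3⟩],
   [(0,2,14116),(0,2,4068),(0,3,8420),(0,3,228),(0,2,3108)],
   [[(⟨1,1,0,0,0,0,-2⟩,[])],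
    [(⟨2,-1,0,0,0,0,-1⟩,[])],
    [(⟨1,1,0,-3,0,0,1⟩,[])],
    [(⟨1,1,0,0,0,-3,1⟩,[])],
    [(⟨1,1,-3,0,0,0,1⟩,[])],
    [(⟨1,1,0,0,-3,0,1⟩,[])],
    [(⟨1,-2,0,0,0,0,1⟩,[])]],
   by decide +kernel⟩

theorem c3_3 : Chk 3 9 3 [⟨1,1,1,0,-1,-1,-1⟩] :=
  ⟨[⟨3,3,-3,-3,3,0,0⟩,⟨-3,0,-3,0,-3,-3,0⟩,⟨0,0,-3,0,-3,0,0⟩,⟨0,0,-3,0,0,-3,0⟩,⟨0,0,0,-3,0,0,0⟩],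
   [(0,1,15524),(0,2,12388),(0,1,12836),(0,1,14372),(0,1,12420)],
   [[(⟨1,1,1,0,-1,-1,-1⟩,[])]],
   by decide +kernel⟩

theorem c3_4 : Chk 3 9 3 [⟨1,1,1,0,0,-1,-2⟩] :=
  ⟨[⟨3,3,-3,0,-3,3,0⟩,⟨3,3,0,0,3,0,3⟩,⟨-3,0,-3,-3,0,0,-3⟩,⟨3,3,0,3,0,0,3⟩,⟨0,0,0,0,-3,0,0⟩],
   [(0,1,13028),(0,1,3236),(0,2,3364),(0,1,3620),(0,1,3588)],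
   [[(⟨1,1,1,0,0,-1,-2⟩,[])],
    [(⟨2,-1,-1,0,0,1,-1⟩,[])],
    [(⟨1,1,-2,0,0,-1,1⟩,[])],
    [(⟨1,-2,1,0,0,-1,1⟩,[])]],
   by decide +kernel⟩

theorem c3_5 : Chk 3 9 3 [⟨1,1,1,0,0,0,-3⟩] :=
  ⟨[⟨0,3,6,0,0,6,3⟩,⟨3,3,-6,3,0,0,0⟩,⟨-3,0,3,0,0,0,0⟩,⟨3,3,3,0,3,3,3⟩,⟨3,3,3,3,3,0,3⟩],
   [(0,3,6372),(0,1,16164),(0,8,5604),(0,1,228),(0,1,3108)],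
   [[(⟨1,1,1,0,0,0,-3⟩,[])],
    [(⟨1,1,-2,0,0,0,0⟩,[])],
    [(⟨1,1,1,0,0,-3,0⟩,[])],
    [(⟨1,1,1,0,-3,0,0⟩,[])],
    [(⟨1,1,1,-3,0,0,0⟩,[])],
    [(⟨1,-2,1,0,0,0,0⟩,[])],
    [(⟨2,-1,-1,0,0,0,0⟩,[])]],
   by decide +kernel⟩

theorem c3_6 : Chk 3 9 3 [⟨2,0,0,0,0,-1,-1⟩] :=
  ⟨[⟨3,6,6,3,0,6,0⟩,⟨0,0,-3,-3,-3,0,0⟩,⟨3,6,6,6,6,0,6⟩,⟨0,3,0,0,0,0,0⟩,⟨0,0,0,0,-3,0,0⟩],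
   [(0,3,14228),(0,1,12964),(0,7,7524),(0,2,12324),(0,1,12804)],
   [[(⟨2,0,0,0,0,-1,-1⟩,[])],
    [(⟨1,-3,0,0,0,1,1⟩,[])],
    [(⟨1,0,0,0,-3,1,1⟩,[])],
    [(⟨1,0,0,0,0,-2,1⟩,[])],
    [(⟨1,0,-3,0,0,1,1⟩,[])],
    [(⟨1,0,0,-3,0,1,1⟩,[])],
    [(⟨1,0,0,0,0,1,-2⟩,[])]],
   by decide +kernel⟩

theorem c3_7 : Chk 3 9 3 [⟨2,0,0,0,0,0,-2⟩] :=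
  ⟨[⟨0,0,0,-6,-6,-6,0⟩,⟨0,6,6,0,0,6,0⟩,⟨0,0,-6,0,-6,-6,0⟩,⟨0,0,-6,-6,0,-6,0⟩],
   [(0,1,14980),(0,3,13460),(0,1,14884),(0,1,14500)],
   [[(⟨2,0,0,0,0,0,-2⟩,[])],
    [(⟨1,0,0,0,-3,0,2⟩,[])],
    [(⟨1,0,0,0,0,-3,2⟩,[])],
    [(⟨1,0,-3,0,0,0,2⟩,[])],
    [(⟨1,-3,0,0,0,0,2⟩,[])],
    [(⟨1,0,0,-3,0,0,2⟩,[])],
    [(⟨2,0,0,0,0,-3,1⟩,[])],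
    [(⟨2,0,0,0,-3,0,1⟩,[])],
    [(⟨2,-3,0,0,0,0,1⟩,[])],
    [(⟨2,0,-3,0,0,0,1⟩,[])],
    [(⟨2,0,0,-3,0,0,1⟩,[])],
    [(⟨1,0,0,0,0,0,-1⟩,[])]],
   by decide +kernel⟩

theorem c3_8 : Chk 3 9 3 [⟨2,1,0,0,-1,-1,-1⟩] :=
  ⟨[⟨-3,3,-3,3,-3,0,0⟩,⟨-3,0,0,-3,-3,-3,0⟩,⟨0,3,0,3,3,0,0⟩,⟨-3,0,-3,0,-3,-3,0⟩,⟨0,0,0,-3,0,0,0⟩],
   [(0,2,15460),(0,3,12436),(0,2,12644),(0,2,12388),(0,1,12420)],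
   [[(⟨2,1,0,0,-1,-1,-1⟩,[])],
    [(⟨1,-1,0,0,-2,1,1⟩,[])],
    [(⟨1,-1,0,0,1,-2,1⟩,[])],
    [(⟨1,-1,0,0,1,1,-2⟩,[])]],
   by decide +kernel⟩

theorem c3_9 : Chk 3 9 3 [⟨2,1,0,0,0,-1,-2⟩] :=
  ⟨[⟨-3,3,-3,0,3,-3,0⟩,⟨0,0,-3,-3,-3,0,0⟩,⟨-3,0,-3,-3,-3,0,-3⟩,⟨-3,3,-3,-3,-3,-3,0⟩,⟨0,0,0,0,-3,0,0⟩],
   [(0,2,12772),(0,1,3748),(0,2,3108),(0,2,12324),(0,1,3588)],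
   [[(⟨2,1,0,0,0,-1,-2⟩,[])],
    [(⟨1,-1,0,0,0,1,-1⟩,[])],
    [(⟨1,-1,0,0,0,-2,2⟩,[])],
    [(⟨2,-2,0,0,0,-1,1⟩,[])],
    [(⟨1,2,0,0,0,-2,-1⟩,[])]],
   by decide +kernel⟩

theorem c3_10 : Chk 3 9 3 [⟨2,1,0,0,0,0,-3⟩] :=
  ⟨[⟨-3,-3,-3,0,0,0,-3⟩,⟨0,-9,-3,0,0,-3,-3⟩,⟨0,0,-3,0,-3,-3,0⟩,⟨0,0,-3,-3,0,-3,0⟩],
   [(0,2,4068),(0,3,10468),(0,3,2788),(0,4,2980)],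
   [[(⟨2,1,0,0,0,0,-3⟩,[])],
    [(⟨1,-1,0,0,0,0,0⟩,[])],
    [(⟨1,2,0,0,0,0,-3⟩,[])],
    [(⟨1,2,0,0,-3,0,0⟩,[])],
    [(⟨2,1,0,0,0,-3,0⟩,[])],
    [(⟨2,1,-3,0,0,0,0⟩,[])],
    [(⟨2,-2,0,0,0,0,0⟩,[])],
    [(⟨1,2,0,0,0,-3,0⟩,[])],
    [(⟨1,2,-3,0,0,0,0⟩,[])],
    [(⟨2,1,0,-3,0,0,0⟩,[])],
    [(⟨1,2,0,-3,0,0,0⟩,[])],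
    [(⟨2,1,0,0,-3,0,0⟩,[])]],
   by decide +kernel⟩

theorem c3_11 : Chk 3 9 3 [⟨3,0,0,0,-1,-1,-1⟩] :=
  ⟨[⟨0,-3,-3,3,-3,0,3⟩,⟨0,-3,-3,3,0,3,-3⟩,⟨0,0,-3,-3,0,0,0⟩,⟨0,3,3,0,0,0,0⟩,⟨0,0,0,-3,0,0,0⟩],
   [(0,5,11668),(0,4,7060),(0,1,12452),(0,3,12436),(0,1,12420)],
   [[(⟨3,0,0,0,-1,-1,-1⟩,[])],
    [(⟨0,0,0,0,2,-1,-1⟩,[])],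
    [(⟨0,3,0,0,-1,-1,-1⟩,[])],
    [(⟨0,0,0,0,1,1,-2⟩,[])],
    [(⟨0,0,0,0,1,-2,1⟩,[])],
    [(⟨0,0,3,0,-1,-1,-1⟩,[])],
    [(⟨0,0,0,3,-1,-1,-1⟩,[])]],
   by decide +kernel⟩

theorem c3_12 : Chk 3 9 3 [⟨3,0,0,0,0,-1,-2⟩] :=
  ⟨[⟨0,0,-3,-3,-3,0,0⟩,⟨-6,-6,-9,-9,-6,0,-9⟩,⟨0,3,0,3,3,0,0⟩,⟨0,3,3,0,3,0,0⟩],
   [(0,1,3748),(0,1,11428),(0,2,3428),(0,3,3476)],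
   [[(⟨3,0,0,0,0,-1,-2⟩,[])],
    [(⟨0,0,3,0,0,-2,-1⟩,[])],
    [(⟨0,3,0,0,0,-1,-2⟩,[])],
    [(⟨0,0,0,3,0,-2,-1⟩,[])],
    [(⟨0,0,0,0,3,-1,-2⟩,[])],
    [(⟨0,0,0,0,3,-2,-1⟩,[])],
    [(⟨0,3,0,0,0,-2,-1⟩,[])],
    [(⟨0,0,0,0,0,1,-1⟩,[])],
    [(⟨0,0,3,0,0,-1,-2⟩,[])],
    [(⟨0,0,0,0,0,2,-2⟩,[])],
    [(⟨0,0,0,3,0,-1,-2⟩,[])],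
    [(⟨3,0,0,0,0,-2,-1⟩,[])]],
   by decide +kernel⟩

end Pool.Agent.MP_92a546_co
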