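import Mathlib.Data.Int.Star
import Mathlib.Algebra.Order.Ring.Star
import Mathlib.Analysis.InnerProductSpace.Orientation
import Mathlib.Algebra.Order.Star.Real
import Mathlib.Tactic.Algebra.Basic

/-!
The 72 roots of `E₆`, in a basis of the root lattice, have all `6 × 6` minors at most 3.
-/

namespace Pool.Agent.MP_92a546_co

open Finset

lemma hadamard {n : ℕ} (R : Matrix (Fin n) (Fin n) ℝ) : R.det ^ 2 ≤ ∏ i, ∑ j, R i j ^ 2 := by
  have : Fact (Module.finrank ℝ (EuclideanSpace ℝ (Fin n)) = n) := ⟨by simp⟩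
  let b := EuclideanSpace.basisFun (Fin n) ℝ
  let v : Fin n → EuclideanSpace ℝ (Fin n) := fun i => WithLp.toLp 2 (R i)
  have h := b.toBasis.orientation.abs_volumeForm_apply_le v
  rw [Orientation.volumeForm_robust' _ b, Module.Basis.det_apply] at h
  have e : b.toBasis.toMatrix v = R.transpose := by
    ext i j
    simp [Module.Basis.toMatrix_apply, b, v]
  rw [e, Matrix.det_transpose] at h
  rw [← sq_abs]
  refine (pow_le_pow_left₀ (abs_nonneg _) h 2).trans (le_of_eq ?_)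
  rw [← Finset.prod_pow]
  refine Finset.prod_congr rfl fun i _ => ?_
  rw [EuclideanSpace.norm_sq_eq]
  simp [v]

/-- The Gram form of `E₆` in the chosen basis. -/
def bl {α : Type} [CommRing α] (x y : Fin 6 → α) : α :=
  x 0 * y 0 + x 1 * y 1 + x 2 * y 2 + x 3 * y 3 + x 4 * y 4 +
    (x 0 + x 1 + x 2 + x 3 + x 4) * (y 0 + y 1 + y 2 + y 3 + y 4) -
    (x 0 + x 1 + x 2) * y 5 - (y 0 + y 1 + y 2) * x 5 + 2 * x 5 * y 5

noncomputable def Lm : Matrix (Fin 6) (Fin 6) ℝ :=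
  !![1, 0, 0, 0, 0, 0; 1/2, 1, 0, 0, 0, 0; 1/2, 1/3, 1, 0, 0, 0; 1/2, 1/3, 1/4, 1, 0, 0;
    1/2, 1/3, 1/4, 1/5, 1, 0; -1/2, -1/3, -1/4, 3/5, 1/2, 1]

noncomputable def dd : Fin 6 → ℝ := ![2, 3/2, 4/3, 5/4, 6/5, 1/2]

lemma det_Lm : Lm.det = 1 := by
  rw [Matrix.det_of_isLowerTriangular]
  · simp [Fin.prod_univ_six, Lm]
  · intro i j h
    have h' : i < j := h
    clear h
    fin_cases i <;> fin_cases j <;> simp_all [Lm]

lemma bl_sos (x : Fin 6 → ℝ) : bl x x = ∑ k, (∑ i, x i * Lm i k) ^ 2 * dd k := by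
  simp [bl, Fin.sum_univ_six, Lm, dd]
  ring

lemma dd_nonneg (k : Fin 6) : 0 ≤ dd k := by
  fin_cases k <;> simp [dd] <;> norm_num

lemma bl_nonneg (x : Fin 6 → ℝ) : 0 ≤ bl x x := by
  rw [bl_sos]
  exact Finset.sum_nonneg fun k _ => mul_nonneg (sq_nonneg _) (dd_nonneg k)

lemma had6 (R : Matrix (Fin 6) (Fin 6) ℝ) : 3 * R.det ^ 2 ≤ ∏ i, bl (R i) (R i) := by
  have h := hadamard (R * Lm * Matrix.diagonal fun k => Real.sqrt (dd k))
  rw [Matrix.det_mul, Matrix.det_mul, det_Lm, Matrix.det_diagonal, mul_one, mul_pow,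
    ← Finset.prod_pow] at h
  simp only [Real.sq_sqrt (dd_nonneg _), Matrix.mul_diagonal, mul_pow] at h
  have e : ∏ k, dd k = 3 := by
    simp [Fin.prod_univ_six, dd]
    norm_num
  rw [e, mul_comm] at h
  simpa only [bl_sos, Matrix.mul_apply] using h

lemma bl_proj (x y : Fin 6 → ℝ) (b : ℤ) (hx : bl x x = 2) (hy : bl y y = 2) (hb : bl x y = b)
    (h0 : b ≠ 0) : bl (x + (-(b : ℝ) / 2) • y) (x + (-(b : ℝ) / 2) • y) ≤ 3 / 2 := by
  have e : bl (x + (-(b : ℝ) / 2) • y) (x + (-(b : ℝ) / 2) • y) =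
      bl x x - b * bl x y + b ^ 2 / 4 * bl y y := by
    simp only [bl, Pi.add_apply, Pi.smul_apply, smul_eq_mul]
    ring
  have h1 : (1 : ℝ) ≤ b ^ 2 := by
    have : (1 : ℤ) ≤ b ^ 2 := by
      have := sq_pos_of_ne_zero h0
      omega
    exact_mod_cast this
  rw [e, hx, hy, hb]
  nlinarith

lemma det_le_three (f : Fin 6 → Fin 6 → ℤ) (h2 : ∀ i, bl (f i) (f i) = 2)
    (h5 : ∀ a, ∃ i j, i ≠ a ∧ j ≠ a ∧ i ≠ j ∧ bl (f i) (f j) ≠ 0) : |(Matrix.of f).det| ≤ 3 := by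
  obtain ⟨i, j, -, -, hij, hb⟩ := h5 0
  obtain ⟨k, l, hk, hl, hkl, hb'⟩ := h5 i
  let R : Matrix (Fin 6) (Fin 6) ℝ := (Matrix.of f).map (Int.cast : ℤ → ℝ)
  have hR : ∀ a b, bl (R a) (R b) = (bl (f a) (f b) : ℤ) := by
    intro a b
    simp [bl, R]
  have hR2 : ∀ a, bl (R a) (R a) = 2 := by
    intro a
    rw [hR, h2]
    norm_num
  let R1 := R.updateRow i (R i + (-(bl (f i) (f j) : ℤ) / 2 : ℝ) • R j)
  let R2 := R1.updateRow k (R1 k + (-(bl (f k) (f l) : ℤ) / 2 : ℝ) • R1 l)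
  have hd : R2.det = R.det := by
    rw [Matrix.det_updateRow_add_smul_self _ hkl, Matrix.det_updateRow_add_smul_self _ hij]
  have hle : ∏ a, bl (R2 a) (R2 a) ≤ ∏ a, if a ∈ ({i, k} : Finset (Fin 6)) then (3 / 2 : ℝ) else 2 := by
    refine Finset.prod_le_prod (fun a _ => bl_nonneg _) fun a _ => ?_
    by_cases ha : a = k
    · subst ha
      simp only [R2, R1, Matrix.updateRow_self, Matrix.updateRow_ne hk, Matrix.updateRow_ne hl]
      rw [if_pos (by simp)]
      exact bl_proj _ _ _ (hR2 _) (hR2 _) (hR _ _) hb'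
    · by_cases ha' : a = i
      · subst ha'
        simp only [R2, R1, Matrix.updateRow_ne ha, Matrix.updateRow_self]
        rw [if_pos (by simp)]
        exact bl_proj _ _ _ (hR2 _) (hR2 _) (hR _ _) hb
      · simp only [R2, R1, Matrix.updateRow_ne ha, Matrix.updateRow_ne ha']
        rw [if_neg (by simp [ha, ha']), hR2]
  have hc : (Finset.univ.filter fun a => a ∈ ({i, k} : Finset (Fin 6))).card = 2 := by
    rw [Finset.filter_mem_eq_inter, Finset.univ_inter, Finset.card_pair (Ne.symm hk)]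
  have hc' : (Finset.univ.filter fun a => ¬ a ∈ ({i, k} : Finset (Fin 6))).card = 4 := by
    have := Finset.card_filter_add_card_filter_not (s := (Finset.univ : Finset (Fin 6)))
      fun a => a ∈ ({i, k} : Finset (Fin 6))
    rw [hc] at this
    simp only [Finset.card_univ, Fintype.card_fin] at this
    omega
  rw [Finset.prod_ite, Finset.prod_const, Finset.prod_const, hc, hc'] at hle
  have h := (had6 R2).trans hle
  rw [hd, ← Int.cast_det] at h
  have h' : (3 : ℝ) * ((Matrix.of f).det : ℤ) ^ 2 ≤ 36 := by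
    refine h.trans (le_of_eq ?_)
    norm_num
  have h'' : 3 * (Matrix.of f).det ^ 2 ≤ 36 := by exact_mod_cast h'
  rw [abs_le]
  constructor <;> nlinarith

structure R6 where
  a : ℤ
  b : ℤ
  c : ℤ
  d : ℤ
  e : ℤ
  f : ℤ

def R6.v (w : R6) : Fin 6 → ℤ := ![w.a, w.b, w.c, w.d, w.e, w.f]

def R6.bl (x y : R6) : ℤ :=
  x.a * y.a + x.b * y.b + x.c * y.c + x.d * y.d + x.e * y.e +
    (x.a + x.b + x.c + x.d + x.e) * (y.a + y.b + y.c + y.d + y.e) -
    (x.a + x.b + x.c) * y.f - (y.a + y.b + y.c) * x.f + 2 * x.f * y.f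

lemma R6.bl_eq (x y : R6) : x.bl y = MP_92a546_co.bl x.v y.v := rfl

/-- One root from each pair of opposite roots. -/
def pos : List R6 :=
  [⟨1, -1, 0, 0, 0, 0⟩, ⟨1, 0, -1, 0, 0, 0⟩, ⟨1, 0, 0, -1, 0, 0⟩, ⟨1, 0, 0, 0, -1, 0⟩,
    ⟨1, 0, 0, 0, 0, 0⟩, ⟨0, 1, -1, 0, 0, 0⟩, ⟨0, 1, 0, -1, 0, 0⟩, ⟨0, 1, 0, 0, -1, 0⟩,
    ⟨0, 1, 0, 0, 0, 0⟩, ⟨0, 0, 1, -1, 0, 0⟩, ⟨0, 0, 1, 0, -1, 0⟩, ⟨0, 0, 1, 0, 0, 0⟩,
    ⟨0, 0, 0, 1, -1, 0⟩, ⟨0, 0, 0, 1, 0, 0⟩, ⟨0, 0, 0, 0, 1, 0⟩, ⟨1, 1, 1, -1, -1, 1⟩,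
    ⟨1, 1, 0, 0, -1, 1⟩, ⟨1, 1, 0, -1, 0, 1⟩, ⟨1, 1, 0, -1, -1, 1⟩, ⟨1, 0, 1, 0, -1, 1⟩,
    ⟨1, 0, 1, -1, 0, 1⟩, ⟨1, 0, 1, -1, -1, 1⟩, ⟨1, 0, 0, 0, 0, 1⟩, ⟨1, 0, 0, 0, -1, 1⟩,
    ⟨1, 0, 0, -1, 0, 1⟩, ⟨0, 1, 1, 0, -1, 1⟩, ⟨0, 1, 1, -1, 0, 1⟩, ⟨0, 1, 1, -1, -1, 1⟩,
    ⟨0, 1, 0, 0, 0, 1⟩, ⟨0, 1, 0, 0, -1, 1⟩, ⟨0, 1, 0, -1, 0, 1⟩, ⟨0, 0, 1, 0, 0, 1⟩,
    ⟨0, 0, 1, 0, -1, 1⟩, ⟨0, 0, 1, -1, 0, 1⟩, ⟨0, 0, 0, 0, 0, 1⟩, ⟨1, 1, 1, -1, -1, 2⟩]

def noClique : ℕ → List R6 → Bool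
  | 0, _ => false
  | k + 1, L => L.rec true fun a L r => noClique k (L.filter fun b => a.bl b == 0) && r

lemma noClique_sound (k : ℕ) : ∀ L : List R6, noClique k L = true → ∀ s : Finset (Fin 6 → ℤ),
    s.card = k → (∀ x ∈ s, ∃ w ∈ L, w.v = x) → (∀ x ∈ s, ∀ y ∈ s, x ≠ y → bl x y = 0) →
    False := by
  induction k with
  | zero => simp [noClique]
  | succ k ih =>
    intro L
    induction L with
    | nil =>
      intro _ s hs h _
      obtain ⟨x, hx⟩ := Finset.card_pos.1 (by omega : 0 < s.card)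
      simpa using h x hx
    | cons a L ihL =>
      intro hc s hs h ho
      have hc' : noClique k (L.filter fun b => a.bl b == 0) = true ∧ noClique (k + 1) L = true :=
        Bool.and_eq_true_iff.1 hc
      by_cases ha : a.v ∈ s
      · refine ih _ hc'.1 (s.erase a.v) (by rw [Finset.card_erase_of_mem ha, hs]; rfl) ?_ ?_
        · intro x hx
          rw [Finset.mem_erase] at hx
          obtain ⟨w, hw, rfl⟩ := h x hx.2
          rcases List.mem_cons.1 hw with rfl | hw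
          · exact absurd rfl hx.1
          · refine ⟨w, List.mem_filter.2 ⟨hw, ?_⟩, rfl⟩
            rw [R6.bl_eq, ho _ ha _ hx.2 (Ne.symm hx.1)]
            rfl
        · intro x hx y hy
          exact ho x (Finset.mem_of_mem_erase hx) y (Finset.mem_of_mem_erase hy)
      · refine ihL hc'.2 s hs ?_ ho
        intro x hx
        obtain ⟨w, hw, rfl⟩ := h x hx
        rcases List.mem_cons.1 hw with rfl | hw
        · exact absurd hx ha
        · exact ⟨w, hw, rfl⟩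

lemma noClique_pos : noClique 5 pos = true := by decide +kernel

lemma pos_norm : ∀ w ∈ pos, bl w.v w.v = 2 := by
  have : (pos.all fun w => w.bl w == 2) = true := by decide +kernel
  intro w hw
  simpa [R6.bl_eq] using List.all_eq_true.1 this w hw

theorem e6_mod (f : Fin 6 → Fin 6 → ℤ)
    (hf : ∀ i, f i = 0 ∨ ∃ w ∈ pos, f i = w.v ∨ f i = -w.v) : |(Matrix.of f).det| ≤ 3 := by
  by_cases h0 : ∃ i, f i = 0
  · obtain ⟨i, hi⟩ := h0
    rw [Matrix.det_eq_zero_of_row_eq_zero (A := Matrix.of f) i (fun j => congrFun hi j)]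
    norm_num
  · push Not at h0
    choose w hw hfw using fun i => (hf i).resolve_left (h0 i)
    have hb : ∀ i j, bl (f i) (f j) = bl (w i).v (w j).v ∨ bl (f i) (f j) = -bl (w i).v (w j).v := by
      intro i j
      rcases hfw i with e | e <;> rcases hfw j with e' | e' <;> rw [e, e']
      · left; rfl
      · right; simp only [bl, Pi.neg_apply]; ring
      · right; simp only [bl, Pi.neg_apply]; ring
      · left; simp only [bl, Pi.neg_apply]; ring
    refine det_le_three f (fun i => ?_) fun a => ?_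
    · rw [← pos_norm _ (hw i)]
      rcases hfw i with e | e <;> rw [e]
      simp only [bl, Pi.neg_apply]
      ring
    · by_contra hcon
      push Not at hcon
      have ho : ∀ i j, i ≠ a → j ≠ a → i ≠ j → bl (w i).v (w j).v = 0 := by
        intro i j hi hj hij
        have := hcon i j hi hj hij
        rcases hb i j with e | e <;> omega
      refine noClique_sound 5 pos noClique_pos ((Finset.univ.erase a).image fun i => (w i).v)
        ?_ ?_ ?_
      · rw [Finset.card_image_of_injOn]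
        · simp
        · intro i hi j hj e
          by_contra hij
          have h1 := ho i j (by simpa using hi) (by simpa using hj) hij
          have h2 := pos_norm _ (hw i)
          simp only at e
          rw [← e] at h1
          omega
      · intro x hx
        obtain ⟨i, -, rfl⟩ := Finset.mem_image.1 hx
        exact ⟨w i, hw i, rfl⟩
      · intro x hx y hy hxy
        obtain ⟨i, hi, rfl⟩ := Finset.mem_image.1 hx
        obtain ⟨j, hj, rfl⟩ := Finset.mem_image.1 hy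
        exact ho i j (by simpa using hi) (by simpa using hj) (fun e => hxy (by rw [e]))

def R6.neg (w : R6) : R6 := ⟨-w.a, -w.b, -w.c, -w.d, -w.e, -w.f⟩

lemma R6.neg_v (w : R6) : w.neg.v = -w.v := by
  funext i
  fin_cases i <;> rfl

def R6.zero : R6 := ⟨0, 0, 0, 0, 0, 0⟩

def cols : List R6 := R6.zero :: (pos ++ pos.map R6.neg)

def col (j : Fin 73) : Fin 6 → ℤ := (cols.getD j R6.zero).v

lemma col_inj : Function.Injective col := by
  have : ∀ j k : Fin 73, (∀ i, col j i = col k i) → j = k := by decide +kernel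
  exact fun j k h => this j k (congrFun h)

lemma col_spec (j : Fin 73) : col j = 0 ∨ ∃ w ∈ pos, col j = w.v ∨ col j = -w.v := by
  have hz : R6.zero.v = 0 := by
    funext i
    fin_cases i <;> rfl
  unfold col
  rw [List.getD_eq_getElem?_getD]
  cases e : cols[(j : ℕ)]? with
  | none => exact Or.inl hz
  | some w =>
    have hw := List.mem_of_getElem? e
    simp only [cols, List.mem_cons, List.mem_append, List.mem_map] at hw
    rcases hw with rfl | hw | ⟨u, hu, rfl⟩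
    · exact Or.inl hz
    · exact Or.inr ⟨w, hw, Or.inl rfl⟩
    · exact Or.inr ⟨u, hu, Or.inr (R6.neg_v u)⟩

lemma col_basis : ∀ i : Fin 6, ∃ j, ∀ k, col j k = if k = i then 1 else 0 := by decide +kernel

end Pool.Agent.MP_92a546_co
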