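import Mathlib.Analysis.RCLike.Lemmas
import Mathlib.Algebra.Order.Star.Real
import Mathlib.Data.Fin.Tuple.Sort
import Pool.Agent.MP_92a546_co.Data1
import Pool.Agent.MP_92a546_co.Data2
import Pool.Agent.MP_92a546_co.Data3

/-!
A 3-modular set of the form `conv (S - S) ∩ ℤ^6` has at most 71 points.
-/

namespace Pool.Agent.MP_92a546_co

open Finset

def anti (w : W) : Bool :=
  decide (w.b ≤ w.a) && decide (w.c ≤ w.b) && decide (w.d ≤ w.c) && decide (w.e ≤ w.d) &&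
    decide (w.f ≤ w.e) && decide (w.g ≤ w.f)

def up (w : W) : W := ⟨w.a, w.b, w.c, w.d, w.e, w.f, w.g + 1⟩

def reps1 : List W :=
  [⟨1,1,0,0,0,0,-1⟩,⟨1,1,1,0,0,-1,-1⟩,⟨1,1,1,0,0,0,-2⟩,⟨2,0,0,0,0,0,-1⟩,
    ⟨2,1,0,0,0,-1,-1⟩,⟨2,1,0,0,0,0,-2⟩,⟨3,0,0,0,0,-1,-1⟩,⟨3,0,0,0,0,0,-2⟩]

lemma reps1_chk : ∀ r ∈ reps1, Chk 1 1 3 (kOf r) := by
  simp only [reps1, List.forall_mem_cons]
  exact ⟨c1_0, c1_1, c1_2, c1_3, c1_4, c1_5, c1_6, c1_7, by simp⟩

lemma cls1 : gen 3 false (fun w => !anti (up w) || W.eqb ⟨1, 0, 0, 0, 0, 0, 0⟩ (up w) ||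
    memb (up w) reps1) = true := by decide +kernel

def reps2 : List W :=
  [⟨1,0,0,0,0,0,-1⟩,⟨1,1,0,0,0,-1,-1⟩,⟨1,1,0,0,0,0,-2⟩,⟨1,1,1,0,-1,-1,-1⟩,
    ⟨1,1,1,0,0,-1,-2⟩,⟨1,1,1,0,0,0,-3⟩,⟨2,0,0,0,0,-1,-1⟩,⟨2,1,0,0,-1,-1,-1⟩,
    ⟨2,1,0,0,0,-1,-2⟩,⟨2,1,0,0,0,0,-3⟩,⟨3,0,0,0,-1,-1,-1⟩,⟨3,0,0,0,0,-1,-2⟩,
    ⟨3,0,0,0,0,0,-3⟩]

lemma reps2_chk : ∀ r ∈ reps2, Chk 2 4 3 [r] := by
  simp only [reps2, List.forall_mem_cons]
  exact ⟨c2_0, c2_1, c2_2, c2_3, c2_4, c2_5, c2_6, c2_7, c2_8, c2_9, c2_10, c2_11, c2_12, by simp⟩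

lemma cls2 : gen 3 false (fun w => !anti w || W.zero.eqb w || memb w (frames 2) ||
    memb w reps2) = true := by decide +kernel

def reps3 : List W :=
  [⟨1,0,0,0,0,0,-1⟩,⟨1,1,0,0,0,-1,-1⟩,⟨1,1,0,0,0,0,-2⟩,⟨1,1,1,0,-1,-1,-1⟩,
    ⟨1,1,1,0,0,-1,-2⟩,⟨1,1,1,0,0,0,-3⟩,⟨2,0,0,0,0,-1,-1⟩,⟨2,0,0,0,0,0,-2⟩,
    ⟨2,1,0,0,-1,-1,-1⟩,⟨2,1,0,0,0,-1,-2⟩,⟨2,1,0,0,0,0,-3⟩,⟨3,0,0,0,-1,-1,-1⟩,
    ⟨3,0,0,0,0,-1,-2⟩]

lemma reps3_chk : ∀ r ∈ reps3, Chk 3 9 3 [r] := by
  simp only [reps3, List.forall_mem_cons]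
  exact ⟨c3_0, c3_1, c3_2, c3_3, c3_4, c3_5, c3_6, c3_7, c3_8, c3_9, c3_10, c3_11, c3_12, by simp⟩

lemma cls3 : gen 3 false (fun w => !anti w || W.zero.eqb w || memb w (frames 3) ||
    memb w reps3) = true := by decide +kernel

lemma exists_sort (x : V) : ∃ σ : Equiv.Perm (Fin 7), anti (W.of (x ∘ σ)) = true := by
  refine ⟨Tuple.sort (-x), ?_⟩
  have h := Tuple.monotone_sort (-x)
  have k : ∀ i j : Fin 7, i ≤ j → x (Tuple.sort (-x) j) ≤ x (Tuple.sort (-x) i) := by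
    intro i j hij
    simpa using h hij
  simp only [anti, Bool.and_eq_true, decide_eq_true_eq]
  exact ⟨⟨⟨⟨⟨k 0 1 (by decide), k 1 2 (by decide)⟩, k 2 3 (by decide)⟩, k 3 4 (by decide)⟩,
    k 4 5 (by decide)⟩, k 5 6 (by decide)⟩

lemma comp_inj (σ : Equiv.Perm (Fin 7)) : Function.Injective fun x : V => x ∘ σ :=
  fun _ _ h => σ.surjective.injective_comp_right h

lemma good_image {δ : ℤ} {Y : Finset V} (h : Good δ (Y : Set V)) (σ : Equiv.Perm (Fin 7)) :
    Good δ ((Y.image fun x : V => x ∘ σ : Finset V) : Set V) := by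
  rw [Finset.coe_image]
  exact h.perm σ

theorem bound23 {δ : ℤ} {m : ℕ} {Y : Finset V} {reps : List W} (h : Good δ (Y : Set V))
    (hm : δ ^ 2 = m) (hr : ∀ r ∈ reps, Chk δ m 3 [r])
    (hc : gen 3 false (fun w => !anti w || W.zero.eqb w || memb w (frames δ) ||
      memb w reps) = true) : Y.card ≤ 71 := by
  by_cases hx : ∃ x ∈ Y, ∀ a b, x ≠ fr δ a b
  · obtain ⟨x, hx, hne⟩ := hx
    obtain ⟨σ, hσ⟩ := exists_sort x
    have h' := good_image h σ
    have hx' : x ∘ σ ∈ Y.image fun x : V => x ∘ σ := Finset.mem_image_of_mem _ hx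
    have hP := gen_aux hc le_rfl (x ∘ σ) (h'.sum _ hx') (h'.posV_le hx') (by simp)
    have hfr : ∀ a b, x ∘ σ ≠ fr δ a b := by
      intro a b e
      apply hne (σ a) (σ b)
      apply comp_inj σ
      simp only [e]
      funext i
      simp [fr]
    simp only [hσ, Bool.not_true, Bool.false_or, Bool.or_eq_true] at hP
    rcases hP with (e | e) | e
    · refine absurd ?_ (hfr 0 0)
      rw [← W.of_v (x ∘ σ), ← W.eq_of_eqb e, W.zero_v]
      funext i
      simp [fr]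
    · obtain ⟨a, b, e'⟩ := frames_spec δ _ (mem_of_memb e)
      rw [W.of_v] at e'
      exact absurd e' (hfr a b)
    · rw [← Finset.card_image_of_injective Y (comp_inj σ)]
      refine chk_sound h' hm ?_ le_rfl (fun y hy => h'.posV_le hy) (hr _ (mem_of_memb e))
      intro w hw
      rw [List.mem_singleton.1 hw, W.of_v]
      exact hx'
  · push Not at hx
    have : Y ⊆ Finset.univ.image fun p : Fin 7 × Fin 7 => fr δ p.1 p.2 := by
      intro x hxY
      obtain ⟨a, b, e⟩ := hx x hxY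
      exact Finset.mem_image.2 ⟨(a, b), Finset.mem_univ _, e.symm⟩
    have h2 := (Finset.card_le_card this).trans Finset.card_image_le
    simp only [Finset.card_univ, Fintype.card_prod, Fintype.card_fin] at h2
    omega

def ee (a : Fin 7) : V := fun i => if i = a then 1 else 0

lemma kOf_spec (x : V) : ∀ w ∈ kOf (W.of x), ∃ a, w.v = x - ee a := by
  have e : kOf (W.of x) = ([0, 1, 2, 3, 4, 5, 6] : List (Fin 7)).map fun a => W.of (x - ee a) := by
    simp [kOf, W.of, ee]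
  intro w hw
  rw [e, List.mem_map] at hw
  obtain ⟨a, -, rfl⟩ := hw
  exact ⟨a, W.of_v _⟩

theorem bound1 {Y : Finset V} (h : Good 1 (Y : Set V)) (x : V) (hx : ∀ a, x - ee a ∈ Y)
    (hne : ∀ a, x ≠ ee a) : Y.card ≤ 71 := by
  obtain ⟨σ, hσ⟩ := exists_sort x
  have h' := good_image h σ
  have he : ∀ a, ee (σ a) ∘ σ = ee a := by
    intro a
    funext i
    simp [ee]
  have hx' : ∀ a, x ∘ σ - ee a ∈ Y.image fun x : V => x ∘ σ := by
    intro a
    refine Finset.mem_image.2 ⟨_, hx (σ a), ?_⟩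
    rw [← he a]
    rfl
  have hP := gen_aux cls1 le_rfl _ (h'.sum _ (hx' 6)) (h'.posV_le (hx' 6)) (by simp)
  have hup : up (W.of (x ∘ σ - ee 6)) = W.of (x ∘ σ) := by
    simp [up, W.of, ee]
  simp only [hup, hσ, Bool.not_true, Bool.false_or, Bool.or_eq_true] at hP
  rcases hP with e | e
  · refine absurd (comp_inj σ ?_) (hne (σ 0))
    simp only [he]
    rw [← W.of_v (x ∘ σ), ← W.eq_of_eqb e]
    funext i
    fin_cases i <;> rfl
  · rw [← Finset.card_image_of_injective Y (comp_inj σ)]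
    refine chk_sound h' (m := 1) (by norm_num) ?_ le_rfl (fun y hy => h'.posV_le hy)
      (reps1_chk _ (mem_of_memb e))
    intro w hw
    obtain ⟨a, e'⟩ := kOf_spec _ w hw
    rw [e']
    exact hx' a

/-- The real point with the given integer coordinates. -/
def rc (x : Fin 6 → ℤ) : Fin 6 → ℝ := fun i => (x i : ℝ)

lemma exists_simplex (S : Set (Fin 6 → ℤ))
    (h : Submodule.span ℝ (convexHull ℝ {y | ∃ s ∈ S, ∃ t ∈ S, y = rc (s - t)}) = ⊤) :
    ∃ s : Fin 7 → Fin 6 → ℤ, (∀ i, s i ∈ S) ∧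
      (Matrix.of fun i : Fin 6 => s i.succ - s 0).det ≠ 0 := by
  have hS : S.Nonempty := by
    by_contra hS
    rw [Set.not_nonempty_iff_eq_empty] at hS
    simp [hS] at h
  obtain ⟨s0, hs0⟩ := hS
  let T : Set (Fin 6 → ℝ) := {y | ∃ s ∈ S, y = rc (s - s0)}
  have hT : Submodule.span ℝ T = ⊤ := by
    rw [eq_top_iff, ← h, Submodule.span_le]
    refine convexHull_min ?_ (Submodule.convex _)
    rintro _ ⟨s, hs, t, ht, rfl⟩
    have : rc (s - t) = rc (s - s0) - rc (t - s0) := by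
      funext i
      simp [rc]
    rw [this]
    exact Submodule.sub_mem _ (Submodule.subset_span ⟨s, hs, rfl⟩)
      (Submodule.subset_span ⟨t, ht, rfl⟩)
  have h6 : Module.finrank ℝ (Submodule.span ℝ T) = 6 := by
    rw [hT]
    simp
  obtain ⟨f, hf, -, hli⟩ := Submodule.exists_fun_fin_finrank_span_eq ℝ T
  revert f
  rw [h6]
  intro f hf hli
  choose s hs hfs using hf
  refine ⟨Fin.cons s0 s, fun i => Fin.cases hs0 hs i, ?_⟩
  simp only [Fin.cons_succ, Fin.cons_zero]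
  have hu : IsUnit (Matrix.of f) := Matrix.linearIndependent_rows_iff_isUnit.1 hli
  rw [Matrix.isUnit_iff_isUnit_det, isUnit_iff_ne_zero] at hu
  intro h0
  apply hu
  have : Matrix.of f = (Matrix.of fun i : Fin 6 => s i - s0).map (Int.cast : ℤ → ℝ) := by
    ext i j
    simp [hfs, rc]
  rw [this, ← Int.cast_det, h0, Int.cast_zero]

lemma abs_det_Mm (s : Fin 7 → Fin 6 → ℤ) :
    |(Mm s).det| = |(Matrix.of fun i : Fin 6 => s i.succ - s 0).det| := by
  let N : Matrix (Fin 7) (Fin 7) ℤ :=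
    Matrix.of (Fin.cons (Fin.cons 1 (s 0)) fun i => Fin.cons 0 (s i.succ - s 0))
  have h : (Mm s).det = N.det := by
    refine Matrix.det_eq_of_forall_row_eq_smul_add_const (Fin.cons 0 fun _ => 1) 0 rfl ?_
    intro i j
    refine Fin.cases ?_ (fun i => ?_) i <;> refine Fin.cases ?_ (fun j => ?_) j <;> simp [Mm, N]
  rw [h, det_first_col N 0]
  · rfl
  · intro i
    refine Fin.cases ?_ (fun i => ?_) i <;> simp [N]

theorem upper (S : Set (Fin 6 → ℤ)) (X : Finset (Fin 6 → ℤ))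
    (hX : ∀ x, x ∈ X ↔ rc x ∈ convexHull ℝ {y | ∃ s ∈ S, ∃ t ∈ S, y = rc (s - t)})
    (hspan : Submodule.span ℝ (rc '' (X : Set (Fin 6 → ℤ))) = ⊤)
    (hmod : ∀ f : Fin 6 → Fin 6 → ℤ, (∀ i, f i ∈ X) → |(Matrix.of f).det| ≤ 3) :
    X.card ≤ 71 := by
  obtain ⟨s, hs, hdet⟩ := exists_simplex S (by
    rw [eq_top_iff, ← hspan]
    apply Submodule.span_mono
    rintro _ ⟨x, hx, rfl⟩
    exact (hX x).1 hx)
  have hdiff : ∀ a ∈ S, ∀ b ∈ S, a - b ∈ X := fun a ha b hb =>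
    (hX _).2 (subset_convexHull ℝ _ ⟨a, ha, b, hb, rfl⟩)
  have hneg : ∀ x ∈ X, -x ∈ X := by
    intro x hx
    rw [hX] at hx ⊢
    have e : rc (-x) = -rc x := by
      funext i
      simp [rc]
    rw [e, ← Set.mem_neg, ← convexHull_neg]
    refine convexHull_mono ?_ hx
    rintro _ ⟨a, ha, b, hb, rfl⟩
    refine ⟨b, hb, a, ha, ?_⟩
    funext i
    simp [rc]
  have habs := abs_det_Mm s
  have hD : (Mm s).det ≠ 0 := by
    intro h0
    rw [h0, abs_zero, eq_comm, abs_eq_zero] at habs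
    exact hdet habs
  have hD3 : |(Mm s).det| ≤ 3 := habs ▸ hmod _ fun i => hdiff _ (hs _) _ (hs _)
  have hg := good_of s X hmod hneg (fun a b => hdiff _ (hs a) _ (hs b)) hD
  rw [← Finset.coe_image] at hg
  rw [← Finset.card_image_of_injective X (bary_inj s hD 0)]
  have hpos := abs_pos.2 hD
  have : |(Mm s).det| = 1 ∨ |(Mm s).det| = 2 ∨ |(Mm s).det| = 3 := by omega
  rcases this with h | h | h
  · rw [h] at hg
    have hD1 : (Mm s).det = 1 ∨ (Mm s).det = -1 := by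
      rcases abs_choice (Mm s).det with e | e <;> omega
    by_cases ht : ∃ t ∈ S, ∀ a, t ≠ s a
    · obtain ⟨t, ht, hne⟩ := ht
      have hv : ∀ a, bary s 1 (s a) = (Mm s).det • ee a := by
        intro a
        rw [bary_vertex]
        funext i
        simp [ee]
      have hm : ∀ a, bary s 1 t - (Mm s).det • ee a ∈ X.image (bary s 0) := by
        intro a
        rw [← hv, ← bary_sub, sub_self]
        exact Finset.mem_image_of_mem _ (hdiff _ ht _ (hs a))
      have hn : ∀ a, bary s 1 t ≠ (Mm s).det • ee a := by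
        intro a e
        rw [← hv] at e
        exact hne a (bary_inj s hD 1 e)
      rcases hD1 with e | e
      · simp only [e, one_smul] at hm hn
        exact bound1 hg _ hm hn
      · simp only [e, neg_smul, one_smul] at hm hn
        refine bound1 hg (-bary s 1 t) (fun a => ?_) (fun a e' => hn a (by rw [← e', neg_neg]))
        have := hg.neg _ (hm a)
        rw [show -(bary s 1 t - -ee a) = -bary s 1 t - ee a by abel] at this
        exact this
    · push Not at ht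
      refine chk_sound hg (m := 1) (B := 1) (K := []) (by norm_num) (by simp) (by norm_num) ?_
        c1_base
      intro y hy
      obtain ⟨x, hx, rfl⟩ := Finset.mem_image.1 hy
      let I := Finset.univ.filter fun i => 0 < bary s 0 x i
      let L : (Fin 6 → ℝ) → ℝ := fun z => ∑ i ∈ I, ∑ j, z j * ((Mm s).adjugate j.succ i : ℤ)
      have hL : ∀ z : Fin 6 → ℤ, L (rc z) = ((∑ i ∈ I, bary s 0 z i : ℤ) : ℝ) := by
        intro z
        simp [L, rc, bary, Matrix.vecMul, dotProduct, Fin.sum_univ_succ (n := 6)]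
      have hlin : IsLinearMap ℝ L := by
        constructor
        · intro u v
          simp [L, add_mul, Finset.sum_add_distrib]
        · intro c u
          simp [L, Finset.mul_sum, mul_assoc]
      have hle : L (rc x) ≤ 1 := by
        refine convexHull_min ?_ (convex_halfSpace_le hlin 1) ((hX x).1 hx)
        rintro _ ⟨a, ha, b, hb, rfl⟩
        obtain ⟨a, rfl⟩ := ht a ha
        obtain ⟨b, rfl⟩ := ht b hb
        change L _ ≤ 1
        rw [hL, bary_frame]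
        have : ∑ i ∈ I, fr (Mm s).det a b i ≤ 1 := by
          simp only [fr, Finset.sum_sub_distrib, Finset.sum_ite_eq']
          split_ifs <;> omega
        exact_mod_cast this
      rw [hL] at hle
      have h1 : ∑ i ∈ I, bary s 0 x i ≤ 1 := by exact_mod_cast hle
      have h2 : (posV (bary s 0 x) : ℤ) = ∑ i ∈ I, bary s 0 x i := by
        rw [posV, Nat.cast_sum, Finset.sum_filter]
        refine Finset.sum_congr rfl fun i _ => ?_
        by_cases hi : 0 < bary s 0 x i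
        · simp [hi, hi.le]
        · simp [hi, not_lt.1 hi]
      omega
  · rw [h] at hg
    exact bound23 hg (m := 4) (by norm_num) reps2_chk cls2
  · rw [h] at hg
    exact bound23 hg (m := 9) (by norm_num) reps3_chk cls3

end Pool.Agent.MP_92a546_co
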